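import Pool.Agent.Lib_MP_cc9a35_lc.Soft

/-!
The properties `PP β`, and their query complexities.
-/

namespace Pool.Agent.Lib_MP_cc9a35_lc

open QueryTree Filter Topology

/-- the parameter `k = ⌈N ^ (1 - β / 2)⌉` -/
noncomputable def kk (β : ℝ) (N : ℕ) : ℕ := ⌈(N : ℝ) ^ (1 - β / 2)⌉₊

/-- the number of special vertices -/
noncomputable def rr (β : ℝ) (N : ℕ) : ℕ := 8 * ell N * kk β N

open Classical in
/-- the allowed bit vectors -/
noncomputable def YY (β : ℝ) (N : ℕ) : Set (Pairs (rr β N) → Bool) :=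
  if h : ∃ Z : Set (Pairs (rr β N) → Bool), Fam (rr β N) (kk β N ^ 2) (kk β N ^ 2) N Z then h.choose
  else ∅

/-- the property belonging to `β` -/
noncomputable def PP (β : ℝ) : GraphProperty := prop (rr β) (YY β)

theorem one_le_rpow_of_pos {N : ℕ} (hN : 0 < N) {a : ℝ} (ha : 0 ≤ a) : (1 : ℝ) ≤ (N : ℝ) ^ a :=
  Real.one_le_rpow (by exact_mod_cast hN) ha

theorem kk_lower (β : ℝ) (N : ℕ) : (N : ℝ) ^ (1 - β / 2) ≤ kk β N := Nat.le_ceil _

theorem kk_sq_lower {β : ℝ} {N : ℕ} : (N : ℝ) ^ (2 - β) ≤ (kk β N : ℝ) ^ 2 := by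
  have h1 := kk_lower β N
  have h2 : (N : ℝ) ^ (2 - β) = ((N : ℝ) ^ (1 - β / 2)) ^ 2 := by
    rw [← Real.rpow_natCast, ← Real.rpow_mul (Nat.cast_nonneg N)]
    congr 1
    push_cast
    ring
  rw [h2]
  exact pow_le_pow_left₀ (Real.rpow_nonneg (Nat.cast_nonneg N) _) h1 2

theorem kk_upper {β : ℝ} (hβ : β ≤ 1) {N : ℕ} (hN : 0 < N) :
    (kk β N : ℝ) ≤ 2 * (N : ℝ) ^ (1 - β / 2) := by
  have h1 := one_le_rpow_of_pos hN (a := 1 - β / 2) (by linarith)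
  have h2 : (kk β N : ℝ) < (N : ℝ) ^ (1 - β / 2) + 1 :=
    Nat.ceil_lt_add_one (by positivity)
  linarith

theorem kk_sq_upper {β : ℝ} (hβ : β ≤ 1) {N : ℕ} (hN : 0 < N) :
    (kk β N : ℝ) ^ 2 ≤ 4 * (N : ℝ) ^ (2 - β) := by
  have h1 := kk_upper hβ hN
  have h2 : (N : ℝ) ^ (2 - β) = ((N : ℝ) ^ (1 - β / 2)) ^ 2 := by
    rw [← Real.rpow_natCast, ← Real.rpow_mul (Nat.cast_nonneg N)]
    congr 1
    push_cast
    ring
  rw [h2]
  calc (kk β N : ℝ) ^ 2 ≤ (2 * (N : ℝ) ^ (1 - β / 2)) ^ 2 := by gcongr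
    _ = _ := by ring

theorem le_kk_sq {β : ℝ} (hβ : β ≤ 1) {N : ℕ} (hN : 0 < N) : N ≤ kk β N ^ 2 := by
  have h1 := kk_sq_lower (β := β) (N := N)
  have h2 : (N : ℝ) ≤ (N : ℝ) ^ (2 - β) := by
    calc (N : ℝ) = (N : ℝ) ^ (1 : ℝ) := (Real.rpow_one _).symm
      _ ≤ (N : ℝ) ^ (2 - β) :=
        Real.rpow_le_rpow_of_exponent_le (by exact_mod_cast hN) (by linarith)
  exact_mod_cast h2.trans h1

theorem hard_PP {β : ℝ} (hβ : β ≤ 1) {N : ℕ} (hN : 0 < N) (hr : 10 * rr β N ≤ N) :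
    Hard (rr β) (YY β) N (kk β N ^ 2) (kk β N ^ 2) := by
  refine ⟨hr, ?_⟩
  have h := hard_arith hN (le_kk_sq hβ hN) hr
  have h' : ∃ Z : Set (Pairs (rr β N) → Bool),
      Fam (rr β N) (kk β N ^ 2) (kk β N ^ 2) N Z := h
  unfold YY
  rw [dif_pos h']
  exact h'.choose_spec

/-! ### Bounds for `ell` -/

theorem ell_le_log {N : ℕ} (hN : 0 < N) : (ell N : ℝ) ≤ 1 + 2 * Real.log N := by
  have h1 : (Nat.log 2 N : ℝ) ≤ Real.logb 2 N := Real.natLog_le_logb N 2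
  have h2 : Real.logb 2 N = Real.log N / Real.log 2 := rfl
  have h3 : (1 / 2 : ℝ) < Real.log 2 := by
    have := Real.log_two_gt_d9
    linarith
  have h4 : 0 ≤ Real.log N := Real.log_nonneg (by exact_mod_cast hN)
  have h5 : Real.log N / Real.log 2 ≤ 2 * Real.log N := by
    rw [div_le_iff₀ (by linarith)]
    nlinarith
  unfold ell
  push_cast
  linarith

theorem ell_le_rpow {N : ℕ} (hN : 0 < N) {δ : ℝ} (hδ : 0 < δ) :
    (ell N : ℝ) ≤ (1 + 2 / δ) * (N : ℝ) ^ δ := by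
  have h1 := ell_le_log hN
  have h2 := Real.log_le_rpow_div (Nat.cast_nonneg N) hδ
  have h3 := one_le_rpow_of_pos hN hδ.le
  calc (ell N : ℝ) ≤ 1 + 2 * Real.log N := h1
    _ ≤ (N : ℝ) ^ δ + 2 * ((N : ℝ) ^ δ / δ) := by linarith
    _ = (1 + 2 / δ) * (N : ℝ) ^ δ := by ring

theorem eventually_rr_small {β : ℝ} (hβ0 : 0 < β) (hβ : β ≤ 1) :
    ∀ᶠ N : ℕ in atTop, 10 * rr β N ≤ N := by
  have h1 : Tendsto (fun N : ℕ => (N : ℝ) ^ (β / 4)) atTop atTop :=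
    (tendsto_rpow_atTop (by positivity)).comp tendsto_natCast_atTop_atTop
  filter_upwards [h1.eventually_ge_atTop (160 * (1 + 2 / (β / 4))), eventually_gt_atTop 0] with
    N h2 hN
  have h3 := kk_upper hβ hN
  have h4 := ell_le_rpow hN (δ := β / 4) (by positivity)
  have hN' : (0 : ℝ) < N := by exact_mod_cast hN
  have h5 : (10 : ℝ) * (rr β N : ℝ) ≤ N := by
    unfold rr
    push_cast
    calc (10 : ℝ) * (8 * (ell N : ℝ) * (kk β N : ℝ)) ≤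
        10 * (8 * ((1 + 2 / (β / 4)) * (N : ℝ) ^ (β / 4)) * (2 * (N : ℝ) ^ (1 - β / 2))) := by
          gcongr
      _ = (160 * (1 + 2 / (β / 4))) * ((N : ℝ) ^ (β / 4) * (N : ℝ) ^ (1 - β / 2)) := by ring
      _ ≤ (N : ℝ) ^ (β / 4) * ((N : ℝ) ^ (β / 4) * (N : ℝ) ^ (1 - β / 2)) := by gcongr
      _ = N := by
        rw [← Real.rpow_add hN', ← Real.rpow_add hN']
        have : β / 4 + (β / 4 + (1 - β / 2)) = 1 := by ring
        rw [this, Real.rpow_one]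
  exact_mod_cast h5

/-! ### The sizes for which the cheap tester does not apply -/

theorem large_sizes {β : ℝ} (hβ0 : 0 < β) (hβ : β ≤ 1) :
    ∃ C₁ ≥ (1 : ℝ), ∃ C₂ ≥ (1 : ℝ), ∀ ε : ℝ, 0 < ε → ε ≤ 1 → 1 ≤ Real.log (1 / ε) →
      ∀ N : ℕ, 0 < N → N ^ 2 < 5 * ⌈1 / ε⌉₊ * rr β N ^ 2 →
      (ell N : ℝ) ≤ C₁ * Real.log (1 / ε) ∧
      (N : ℝ) ^ β ≤ C₂ * Real.log (1 / ε) ^ 2 / ε := by
  set K : ℝ := 2560 * (1 + 2 / (β / 4)) ^ 2 with hK
  have hK1 : 1 ≤ K := by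
    have : (1 : ℝ) ≤ (1 + 2 / (β / 4)) ^ 2 := by
      refine one_le_pow₀ ?_
      have : 0 < 2 / (β / 4) := by positivity
      linarith
    linarith
  have hlogK : 0 ≤ Real.log K := Real.log_nonneg hK1
  set C₁ : ℝ := 1 + 2 * ((2 / β) * (Real.log K + 1)) with hC₁
  have hC₁1 : 1 ≤ C₁ := by
    have : 0 ≤ (2 / β) * (Real.log K + 1) := by positivity
    linarith
  refine ⟨C₁, hC₁1, 2560 * C₁ ^ 2, ?_, ?_⟩
  · have : (1 : ℝ) ≤ C₁ ^ 2 := one_le_pow₀ hC₁1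
    linarith
  intro ε hε hε1 hL N hN hlt
  set L := Real.log (1 / ε) with hLdef
  have hNr : (0 : ℝ) < N := by exact_mod_cast hN
  have hM : (⌈1 / ε⌉₊ : ℝ) ≤ 2 / ε := by
    have h1 : (⌈1 / ε⌉₊ : ℝ) < 1 / ε + 1 := Nat.ceil_lt_add_one (by positivity)
    have h2 : 1 ≤ 1 / ε := by rw [le_div_iff₀ hε]; linarith
    have h3 : 2 / ε = 1 / ε + 1 / ε := by ring
    linarith
  have hlt' : (N : ℝ) ^ 2 < 5 * (⌈1 / ε⌉₊ : ℝ) * (rr β N : ℝ) ^ 2 := by exact_mod_cast hlt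
  have hmain : (N : ℝ) ^ β < 2560 * (ell N : ℝ) ^ 2 / ε := by
    have h1 : (N : ℝ) ^ 2 < 2560 * (ell N : ℝ) ^ 2 / ε * (N : ℝ) ^ (2 - β) := by
      calc (N : ℝ) ^ 2 < 5 * (⌈1 / ε⌉₊ : ℝ) * (rr β N : ℝ) ^ 2 := hlt'
        _ ≤ 5 * (2 / ε) * (rr β N : ℝ) ^ 2 := by gcongr
        _ = 5 * (2 / ε) * (64 * (ell N : ℝ) ^ 2 * (kk β N : ℝ) ^ 2) := by
          unfold rr
          push_cast
          ring
        _ ≤ 5 * (2 / ε) * (64 * (ell N : ℝ) ^ 2 * (4 * (N : ℝ) ^ (2 - β))) := by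
          gcongr
          exact kk_sq_upper hβ hN
        _ = _ := by ring
    have h2 : (N : ℝ) ^ 2 = (N : ℝ) ^ β * (N : ℝ) ^ (2 - β) := by
      rw [← Real.rpow_add hNr, ← Real.rpow_natCast]
      congr 1
      push_cast
      ring
    rw [h2] at h1
    exact lt_of_mul_lt_mul_right h1 (by positivity)
  have hlog : Real.log N ≤ (2 / β) * (Real.log K + 1) * L := by
    have h1 := ell_le_rpow hN (δ := β / 4) (by positivity)
    have h2 : (N : ℝ) ^ β < K * (N : ℝ) ^ (β / 2) / ε := by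
      calc (N : ℝ) ^ β < 2560 * (ell N : ℝ) ^ 2 / ε := hmain
        _ ≤ 2560 * ((1 + 2 / (β / 4)) * (N : ℝ) ^ (β / 4)) ^ 2 / ε := by gcongr
        _ = K * ((N : ℝ) ^ (β / 4)) ^ 2 / ε := by rw [hK]; ring
        _ = K * (N : ℝ) ^ (β / 2) / ε := by
          rw [← Real.rpow_natCast, ← Real.rpow_mul hNr.le]
          congr 3
          push_cast
          ring
    have h3 : (N : ℝ) ^ (β / 2) < K / ε := by
      have h4 : (N : ℝ) ^ β = (N : ℝ) ^ (β / 2) * (N : ℝ) ^ (β / 2) := by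
        rw [← Real.rpow_add hNr]
        congr 1
        ring
      rw [h4] at h2
      have h5 : (N : ℝ) ^ (β / 2) * (N : ℝ) ^ (β / 2) < (K / ε) * (N : ℝ) ^ (β / 2) := by
        calc _ < K * (N : ℝ) ^ (β / 2) / ε := h2
          _ = _ := by ring
      exact lt_of_mul_lt_mul_right h5 (by positivity)
    have h4 : Real.log ((N : ℝ) ^ (β / 2)) < Real.log (K / ε) :=
      Real.log_lt_log (by positivity) h3
    rw [Real.log_rpow hNr] at h4
    have h5 : Real.log (K / ε) = Real.log K + L := by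
      rw [hLdef, one_div, div_eq_mul_inv, Real.log_mul (by positivity) (by positivity)]
    rw [h5] at h4
    have h6 : Real.log K + L ≤ (Real.log K + 1) * L := by nlinarith
    have h7 : Real.log N = (2 / β) * (β / 2 * Real.log N) := by
      field_simp
    rw [h7, mul_assoc]
    have h8 : 0 < 2 / β := by positivity
    exact mul_le_mul_of_nonneg_left (by linarith) h8.le
  have hell : (ell N : ℝ) ≤ C₁ * L := by
    have h1 := ell_le_log hN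
    calc (ell N : ℝ) ≤ 1 + 2 * Real.log N := h1
      _ ≤ L + 2 * ((2 / β) * (Real.log K + 1) * L) := by linarith
      _ = C₁ * L := by rw [hC₁]; ring
  refine ⟨hell, ?_⟩
  calc (N : ℝ) ^ β ≤ 2560 * (ell N : ℝ) ^ 2 / ε := hmain.le
    _ ≤ 2560 * (C₁ * L) ^ 2 / ε := by gcongr
    _ = 2560 * C₁ ^ 2 * L ^ 2 / ε := by ring

end Pool.Agent.Lib_MP_cc9a35_lc
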