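import Pool.Agent.Lib_MP_cc9a35_lc.Asymp

/-!
Upper and lower bounds for the query complexities of `PP β`.
-/

namespace Pool.Agent.Lib_MP_cc9a35_lc

open QueryTree Filter Topology

theorem eventually_pos : ∀ᶠ ε in 𝓝[>] (0 : ℝ), 0 < ε := self_mem_nhdsWithin

theorem eventually_le_one : ∀ᶠ ε in 𝓝[>] (0 : ℝ), ε ≤ 1 :=
  (eventually_le_nhds (by norm_num : (0 : ℝ) < 1)).filter_mono nhdsWithin_le_nhds

theorem ceil_inv_le {ε : ℝ} (hε : 0 < ε) (hε1 : ε ≤ 1) : (⌈1 / ε⌉₊ : ℝ) ≤ 2 / ε := by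
  have h1 : (⌈1 / ε⌉₊ : ℝ) < 1 / ε + 1 := Nat.ceil_lt_add_one (by positivity)
  have h2 : 1 ≤ 1 / ε := by rw [le_div_iff₀ hε]; linarith
  have h3 : 2 / ε = 1 / ε + 1 / ε := by ring
  linarith

theorem one_le_mul_ceil {ε : ℝ} (hε : 0 < ε) : 1 ≤ ε * (⌈1 / ε⌉₊ : ℝ) := by
  have h := Nat.le_ceil (1 / ε)
  calc (1 : ℝ) = ε * (1 / ε) := by field_simp
    _ ≤ _ := by gcongr

theorem pow_bound {C L ε γ : ℝ} (hC : 1 ≤ C) (hL : 1 ≤ L) (hε : 0 < ε) :
    (C * L ^ 2 / ε) ^ γ ≤ C ^ γ * L ^ ⌈2 * γ⌉₊ * (1 / ε) ^ γ := by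
  have hL0 : 0 ≤ L := by linarith
  have hC0 : 0 ≤ C := by linarith
  have h1 : C * L ^ 2 / ε = C * L ^ 2 * (1 / ε) := by ring
  rw [h1, Real.mul_rpow (by positivity) (by positivity), Real.mul_rpow hC0 (by positivity)]
  gcongr
  rw [← Real.rpow_natCast L 2, ← Real.rpow_mul hL0, ← Real.rpow_natCast L]
  refine Real.rpow_le_rpow_of_exponent_le hL ?_
  push_cast
  exact Nat.le_ceil _

theorem upper_nonadaptive {β : ℝ} (hβ0 : 0 < β) (hβ : β ≤ 1) :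
    ∃ C > 0, ∃ k : ℕ, ∀ᶠ ε in 𝓝[>] (0 : ℝ), ∃ q : ℕ, NonadaptivelyTestable (PP β) ε q ∧
      (q : ℝ) ≤ C * Real.log (1 / ε) ^ k * (1 / ε) ^ (2 / β) := by
  obtain ⟨C₁, hC₁, C₂, hC₂, hlarge⟩ := large_sizes hβ0 hβ
  refine ⟨6 * C₂ ^ (2 / β), by positivity, ⌈2 * (2 / β)⌉₊, ?_⟩
  filter_upwards [eventually_pos, eventually_le_one, eventually_log_ge_one] with ε hε hε1 hL
  set L := Real.log (1 / ε) with hLdef
  set X : ℝ := C₂ * L ^ 2 / ε with hX
  have hXε : 1 / ε ≤ X := by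
    rw [hX]
    have : (1 : ℝ) ≤ C₂ * L ^ 2 := by
      have := one_le_pow₀ (n := 2) hL
      nlinarith
    gcongr
  have h1ε : 1 ≤ 1 / ε := by rw [le_div_iff₀ hε]; linarith
  have hX1 : 1 ≤ X := h1ε.trans hXε
  have h2β : 1 ≤ 2 / β := by rw [le_div_iff₀ hβ0]; linarith
  have hXX : X ≤ X ^ (2 / β) := by
    calc X = X ^ (1 : ℝ) := (Real.rpow_one X).symm
      _ ≤ X ^ (2 / β) := Real.rpow_le_rpow_of_exponent_le hX1 h2β
  set M := ⌈1 / ε⌉₊ with hM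
  have hM2 : (M : ℝ) ≤ 2 / ε := ceil_inv_le hε hε1
  have hq3M : 3 * M ≤ ⌊6 * X ^ (2 / β)⌋₊ := by
    refine Nat.le_floor ?_
    push_cast
    calc 3 * (M : ℝ) ≤ 3 * (2 / ε) := by gcongr
      _ = 6 * (1 / ε) := by ring
      _ ≤ 6 * X ^ (2 / β) := by gcongr; exact hXε.trans hXX
  refine ⟨⌊6 * X ^ (2 / β)⌋₊, ?_, ?_⟩
  · intro N
    rcases Nat.eq_zero_or_pos N with hN0 | hN
    · obtain ⟨A, h1, h2⟩ := exact_tester (PP β) hε N
      refine ⟨A, fun T hT => ⟨(h1 T hT).1, (h1 T hT).2.trans ?_⟩, h2⟩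
      rw [hN0]
      exact Nat.zero_le _
    · by_cases hcase : 10 * rr β N ≤ N → 5 * M * rr β N ^ 2 ≤ N ^ 2
      · obtain ⟨A, h1, h2⟩ := cheap_tester (rr β) (YY β) hN (one_le_mul_ceil hε) hcase
        exact ⟨A, fun T hT => ⟨(h1 T hT).1, (h1 T hT).2.trans hq3M⟩, h2⟩
      · push Not at hcase
        obtain ⟨_, h4⟩ := hlarge ε hε hε1 hL N hN hcase.2
        obtain ⟨A, h1, h2⟩ := exact_tester (PP β) hε N
        refine ⟨A, fun T hT => ⟨(h1 T hT).1, (h1 T hT).2.trans ?_⟩, h2⟩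
        refine Nat.le_floor ?_
        have hN' : (0 : ℝ) < N := by exact_mod_cast hN
        push_cast
        calc (N : ℝ) * N = ((N : ℝ) ^ β) ^ (2 / β) := by
              rw [← Real.rpow_mul hN'.le]
              have : β * (2 / β) = (2 : ℕ) := by
                push_cast
                field_simp
              rw [this, Real.rpow_natCast]
              ring
          _ ≤ X ^ (2 / β) := by gcongr
          _ ≤ 6 * X ^ (2 / β) := by
              have : 0 ≤ X ^ (2 / β) := by positivity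
              linarith
  · refine (Nat.floor_le (by positivity)).trans ?_
    have h5 := pow_bound hC₂ hL hε (γ := 2 / β)
    calc 6 * X ^ (2 / β) ≤ 6 * (C₂ ^ (2 / β) * L ^ ⌈2 * (2 / β)⌉₊ * (1 / ε) ^ (2 / β)) := by
          gcongr
      _ = _ := by ring

theorem upper_adaptive {β : ℝ} (hβ0 : 0 < β) (hβ : β ≤ 1) :
    ∃ C > 0, ∃ k : ℕ, ∀ᶠ ε in 𝓝[>] (0 : ℝ), ∃ q : ℕ, Testable (PP β) ε q ∧
      (q : ℝ) ≤ C * Real.log (1 / ε) ^ k * (1 / ε) ^ ((2 - β) / β) := by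
  obtain ⟨C₁, hC₁, C₂, hC₂, hlarge⟩ := large_sizes hβ0 hβ
  set γ : ℝ := (2 - β) / β with hγ
  have hγ1 : 1 ≤ γ := by rw [hγ, le_div_iff₀ hβ0]; linarith
  refine ⟨(6 + 256 * C₁ ^ 2) * C₂ ^ γ, by positivity, 2 + ⌈2 * γ⌉₊, ?_⟩
  filter_upwards [eventually_pos, eventually_le_one, eventually_log_ge_one] with ε hε hε1 hL
  set L := Real.log (1 / ε) with hLdef
  set X : ℝ := C₂ * L ^ 2 / ε with hX
  have hXε : 1 / ε ≤ X := by
    rw [hX]
    have : (1 : ℝ) ≤ C₂ * L ^ 2 := by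
      have := one_le_pow₀ (n := 2) hL
      nlinarith
    gcongr
  have h1ε : 1 ≤ 1 / ε := by rw [le_div_iff₀ hε]; linarith
  have hX1 : 1 ≤ X := h1ε.trans hXε
  have hXX : X ≤ X ^ γ := by
    calc X = X ^ (1 : ℝ) := (Real.rpow_one X).symm
      _ ≤ X ^ γ := Real.rpow_le_rpow_of_exponent_le hX1 hγ1
  have hXγ : 0 ≤ X ^ γ := by positivity
  set M := ⌈1 / ε⌉₊ with hM
  have hM2 : (M : ℝ) ≤ 2 / ε := ceil_inv_le hε hε1
  have hM3 : (M : ℝ) ≤ 2 * X ^ γ := by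
    calc (M : ℝ) ≤ 2 / ε := hM2
      _ = 2 * (1 / ε) := by ring
      _ ≤ 2 * X ^ γ := by gcongr; exact hXε.trans hXX
  set B : ℝ := (6 + 256 * C₁ ^ 2 * L ^ 2) * X ^ γ with hB
  have hB6 : 6 * X ^ γ ≤ B := by
    rw [hB]
    have : 0 ≤ 256 * C₁ ^ 2 * L ^ 2 := by positivity
    nlinarith
  have hq3M : 3 * M ≤ ⌊B⌋₊ := by
    refine Nat.le_floor ?_
    push_cast
    linarith
  refine ⟨⌊B⌋₊, ?_, ?_⟩
  · intro N
    rcases Nat.eq_zero_or_pos N with hN0 | hN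
    · obtain ⟨A, h1, h2⟩ := exact_tester (PP β) hε N
      refine ⟨A, fun T hT => (h1 T hT).2.trans ?_, h2⟩
      rw [hN0]
      exact Nat.zero_le _
    · by_cases hcase : 10 * rr β N ≤ N → 5 * M * rr β N ^ 2 ≤ N ^ 2
      · obtain ⟨A, h1, h2⟩ := cheap_tester (rr β) (YY β) hN (one_le_mul_ceil hε) hcase
        exact ⟨A, fun T hT => (h1 T hT).2.trans hq3M, h2⟩
      · push Not at hcase
        obtain ⟨h3, h4⟩ := hlarge ε hε hε1 hL N hN hcase.2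
        obtain ⟨A, h1, h2⟩ := adaptive_tester (rr β) (YY β) hN (one_le_mul_ceil hε) hcase.1
        refine ⟨A, fun T hT => (h1 T hT).trans ?_, h2⟩
        refine Nat.le_floor ?_
        have hN' : (0 : ℝ) < N := by exact_mod_cast hN
        have hN2 : (N : ℝ) ^ (2 - β) ≤ X ^ γ := by
          calc (N : ℝ) ^ (2 - β) = ((N : ℝ) ^ β) ^ γ := by
                rw [← Real.rpow_mul hN'.le]
                congr 1
                rw [hγ]
                field_simp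
            _ ≤ X ^ γ := by gcongr
        have hN1 : (N : ℝ) ≤ (N : ℝ) ^ (2 - β) := by
          calc (N : ℝ) = (N : ℝ) ^ (1 : ℝ) := (Real.rpow_one _).symm
            _ ≤ (N : ℝ) ^ (2 - β) :=
              Real.rpow_le_rpow_of_exponent_le (by exact_mod_cast hN) (by linarith)
        have hrr : (rr β N : ℝ) * (rr β N : ℝ) ≤ 256 * C₁ ^ 2 * L ^ 2 * X ^ γ := by
          calc (rr β N : ℝ) * (rr β N : ℝ) = 64 * (ell N : ℝ) ^ 2 * (kk β N : ℝ) ^ 2 := by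
                unfold rr
                push_cast
                ring
            _ ≤ 64 * (C₁ * L) ^ 2 * (4 * (N : ℝ) ^ (2 - β)) := by
                gcongr
                exact kk_sq_upper hβ hN
            _ ≤ 64 * (C₁ * L) ^ 2 * (4 * X ^ γ) := by gcongr
            _ = _ := by ring
        push_cast
        calc (N : ℝ) + M + (rr β N : ℝ) * (rr β N : ℝ) ≤
            X ^ γ + 2 * X ^ γ + 256 * C₁ ^ 2 * L ^ 2 * X ^ γ := by
              gcongr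
              exact hN1.trans hN2
          _ ≤ B := by rw [hB]; nlinarith
  · refine (Nat.floor_le (by positivity)).trans ?_
    have h5 := pow_bound hC₂ hL hε (γ := γ)
    have hL2 : 1 ≤ L ^ 2 := one_le_pow₀ hL
    calc B ≤ ((6 + 256 * C₁ ^ 2) * L ^ 2) * X ^ γ := by
          rw [hB]
          gcongr
          nlinarith
      _ ≤ ((6 + 256 * C₁ ^ 2) * L ^ 2) * (C₂ ^ γ * L ^ ⌈2 * γ⌉₊ * (1 / ε) ^ γ) := by
          gcongr
      _ = _ := by rw [pow_add]; ring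

/-- The number of vertices used for the lower bounds. -/
noncomputable def NN (β ε : ℝ) : ℕ := ⌊(1 / ε) ^ (1 / β)⌋₊

theorem tendsto_NN {β : ℝ} (hβ0 : 0 < β) : Tendsto (NN β) (𝓝[>] 0) atTop := by
  unfold NN
  refine tendsto_nat_floor_atTop.comp ((tendsto_rpow_atTop (by positivity)).comp ?_)
  exact (tendsto_inv_nhdsGT_zero (𝕜 := ℝ)).congr (fun x => (one_div x).symm)

theorem NN_facts {β ε : ℝ} (hβ0 : 0 < β) (hε : 0 < ε) (hN : 2 ≤ NN β ε) :
    (NN β ε : ℝ) ≤ (1 / ε) ^ (1 / β) ∧ (1 / ε) ^ (1 / β) ≤ 2 * (NN β ε : ℝ) ∧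
      ε * (NN β ε : ℝ) ^ 2 < ((kk β (NN β ε) ^ 2 : ℕ) : ℝ) + 1 := by
  have h1 : (NN β ε : ℝ) ≤ (1 / ε) ^ (1 / β) := Nat.floor_le (by positivity)
  have h2 : (1 / ε) ^ (1 / β) < (NN β ε : ℝ) + 1 := Nat.lt_floor_add_one _
  have h3 : (2 : ℝ) ≤ NN β ε := by exact_mod_cast hN
  refine ⟨h1, by linarith, ?_⟩
  have hNpos : (0 : ℝ) < NN β ε := by linarith
  have h4 : (NN β ε : ℝ) ^ β ≤ 1 / ε := by
    calc (NN β ε : ℝ) ^ β ≤ ((1 / ε) ^ (1 / β)) ^ β := by gcongr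
      _ = 1 / ε := by
        rw [← Real.rpow_mul (by positivity)]
        have : 1 / β * β = 1 := by field_simp
        rw [this, Real.rpow_one]
  have h5 : (NN β ε : ℝ) ^ 2 = (NN β ε : ℝ) ^ β * (NN β ε : ℝ) ^ (2 - β) := by
    rw [← Real.rpow_add hNpos, ← Real.rpow_natCast]
    congr 1
    push_cast
    ring
  have h6 := kk_sq_lower (β := β) (N := NN β ε)
  push_cast
  calc ε * (NN β ε : ℝ) ^ 2 = (ε * (NN β ε : ℝ) ^ β) * (NN β ε : ℝ) ^ (2 - β) := by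
        rw [h5]; ring
    _ ≤ (ε * (1 / ε)) * (NN β ε : ℝ) ^ (2 - β) := by gcongr
    _ = (NN β ε : ℝ) ^ (2 - β) := by
        have : ε * (1 / ε) = 1 := by field_simp
        rw [this, one_mul]
    _ ≤ (kk β (NN β ε) : ℝ) ^ 2 := h6
    _ < (kk β (NN β ε) : ℝ) ^ 2 + 1 := by linarith

theorem lower_adaptive {β : ℝ} (hβ0 : 0 < β) (hβ : β ≤ 1) :
    ∀ᶠ ε in 𝓝[>] (0 : ℝ), ∀ q : ℕ, Testable (PP β) ε q →
      (1 / ε) ^ ((2 - β) / β) ≤ 4 * q ∧ (NN β ε : ℝ) ≤ q := by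
  have h1 : ∀ᶠ ε in 𝓝[>] (0 : ℝ), 10 * rr β (NN β ε) ≤ NN β ε :=
    (tendsto_NN hβ0).eventually (eventually_rr_small hβ0 hβ)
  have h2 : ∀ᶠ ε in 𝓝[>] (0 : ℝ), 2 ≤ NN β ε :=
    (tendsto_NN hβ0).eventually (eventually_ge_atTop 2)
  filter_upwards [h1, h2, eventually_pos] with ε hr hN hε q hq
  obtain ⟨h3, h4, h5⟩ := NN_facts hβ0 hε hN
  have hH := hard_PP hβ (N := NN β ε) (by omega) hr
  have h6 := adaptive_lower (rr β) (YY β) hH h5 hq
  have h7 : (kk β (NN β ε) : ℝ) ^ 2 ≤ q := by exact_mod_cast h6.le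
  have hN0 : (0 : ℝ) ≤ NN β ε := Nat.cast_nonneg _
  constructor
  · calc (1 / ε) ^ ((2 - β) / β) = ((1 / ε) ^ (1 / β)) ^ (2 - β) := by
          rw [← Real.rpow_mul (by positivity)]
          congr 1
          ring
      _ ≤ (2 * (NN β ε : ℝ)) ^ (2 - β) := by
          refine Real.rpow_le_rpow (by positivity) h4 (by linarith)
      _ = 2 ^ (2 - β) * (NN β ε : ℝ) ^ (2 - β) := Real.mul_rpow (by norm_num) hN0
      _ ≤ 4 * (kk β (NN β ε) : ℝ) ^ 2 := by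
          gcongr
          · calc (2 : ℝ) ^ (2 - β) ≤ 2 ^ (2 : ℝ) :=
                  Real.rpow_le_rpow_of_exponent_le (by norm_num) (by linarith)
              _ = 4 := by norm_num
          · exact kk_sq_lower
      _ ≤ 4 * q := by gcongr
  · have h8 := le_kk_sq hβ (N := NN β ε) (by omega)
    have h9 : (NN β ε : ℝ) ≤ (kk β (NN β ε) : ℝ) ^ 2 := by exact_mod_cast h8
    exact h9.trans h7

theorem lower_nonadaptive {β : ℝ} (hβ0 : 0 < β) (hβ : β ≤ 1) :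
    ∃ C > 0, ∃ k : ℕ, ∀ᶠ ε in 𝓝[>] (0 : ℝ), ∀ q : ℕ, NonadaptivelyTestable (PP β) ε q →
      (1 / ε) ^ (2 / β) ≤ C * Real.log (1 / ε) ^ k * q := by
  refine ⟨5120 * (1 + 2 / β) ^ 2, by positivity, 2, ?_⟩
  have h1 : ∀ᶠ ε in 𝓝[>] (0 : ℝ), 10 * rr β (NN β ε) ≤ NN β ε :=
    (tendsto_NN hβ0).eventually (eventually_rr_small hβ0 hβ)
  have h2 : ∀ᶠ ε in 𝓝[>] (0 : ℝ), 2 ≤ NN β ε :=
    (tendsto_NN hβ0).eventually (eventually_ge_atTop 2)
  filter_upwards [h1, h2, eventually_pos, eventually_log_ge_one] with ε hr hN hε hL q hq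
  obtain ⟨h3, h4, h5⟩ := NN_facts hβ0 hε hN
  have hNpos : 0 < NN β ε := by omega
  have hH := hard_PP hβ (N := NN β ε) hNpos hr
  have h6 := nonadaptive_lower (rr β) (YY β) hH h5 hq
  set N := NN β ε with hNdef
  set k := kk β N with hk
  have hk1 : 1 ≤ k ^ 2 := hNpos.trans_le (le_kk_sq hβ hNpos)
  -- arithmetic in the naturals
  have h7 : k ^ 2 * (N * (N - 1)) ≤ k ^ 2 * (640 * q * ell N ^ 2) := by
    have h8 : rr β N * (rr β N - 1) ≤ rr β N ^ 2 := by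
      rw [sq]
      exact Nat.mul_le_mul_left _ (Nat.sub_le _ _)
    have h9 : rr β N ^ 2 = 64 * ell N ^ 2 * k ^ 2 := by
      unfold rr
      rw [← hk]
      ring
    calc k ^ 2 * (N * (N - 1)) ≤ (k ^ 2 + 1) * (N * (N - 1)) := by gcongr; omega
      _ ≤ 10 * q * (rr β N * (rr β N - 1)) := h6.le
      _ ≤ 10 * q * rr β N ^ 2 := by gcongr
      _ = k ^ 2 * (640 * q * ell N ^ 2) := by rw [h9]; ring
  have h8 : N * (N - 1) ≤ 640 * q * ell N ^ 2 := Nat.le_of_mul_le_mul_left h7 hk1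
  have h9 : N ^ 2 ≤ 2 * (N * (N - 1)) := by
    have : N ≤ 2 * (N - 1) := by omega
    calc N ^ 2 = N * N := sq N
      _ ≤ N * (2 * (N - 1)) := by gcongr
      _ = 2 * (N * (N - 1)) := by ring
  have h10 : (N : ℝ) ^ 2 ≤ 1280 * q * (ell N : ℝ) ^ 2 := by
    have : N ^ 2 ≤ 1280 * q * ell N ^ 2 := by
      calc N ^ 2 ≤ 2 * (N * (N - 1)) := h9
        _ ≤ 2 * (640 * q * ell N ^ 2) := by gcongr
        _ = _ := by ring
    exact_mod_cast this
  have hell : (ell N : ℝ) ≤ (1 + 2 / β) * Real.log (1 / ε) := by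
    have e1 := ell_le_log hNpos
    have e2 : Real.log N ≤ 1 / β * Real.log (1 / ε) := by
      have hN' : (0 : ℝ) < N := by exact_mod_cast hNpos
      calc Real.log N ≤ Real.log ((1 / ε) ^ (1 / β)) := Real.log_le_log hN' h3
        _ = 1 / β * Real.log (1 / ε) := Real.log_rpow (by positivity) _
    calc (ell N : ℝ) ≤ 1 + 2 * Real.log N := e1
      _ ≤ Real.log (1 / ε) + 2 * (1 / β * Real.log (1 / ε)) := by linarith
      _ = _ := by ring
  calc (1 / ε) ^ (2 / β) = ((1 / ε) ^ (1 / β)) ^ 2 := by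
        rw [← Real.rpow_natCast, ← Real.rpow_mul (by positivity)]
        congr 1
        push_cast
        ring
    _ ≤ (2 * (N : ℝ)) ^ 2 := by gcongr
    _ = 4 * (N : ℝ) ^ 2 := by ring
    _ ≤ 4 * (1280 * q * (ell N : ℝ) ^ 2) := by gcongr
    _ ≤ 4 * (1280 * q * ((1 + 2 / β) * Real.log (1 / ε)) ^ 2) := by gcongr
    _ = _ := by ring

theorem achievable_of_one_lt {c : ℝ} (hc : 1 < c) (hc2 : c ≤ 2) : Achievable c := by
  set β : ℝ := 2 - 2 / c with hβdef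
  have hc0 : 0 < c := by linarith
  have hβ0 : 0 < β := by
    have : 2 / c < 2 := by rw [div_lt_iff₀ hc0]; linarith
    linarith
  have hβ : β ≤ 1 := by
    have : 1 ≤ 2 / c := by rw [le_div_iff₀ hc0]; linarith
    linarith
  have h2β : (2 - β) = 2 / c := by rw [hβdef]; ring
  obtain ⟨C, hC, k, hU⟩ := upper_nonadaptive hβ0 hβ
  obtain ⟨C', hC', k', hU'⟩ := upper_adaptive hβ0 hβ
  obtain ⟨C'', hC'', k'', hL⟩ := lower_nonadaptive hβ0 hβ
  have hL' := lower_adaptive hβ0 hβ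
  refine achievable_of_bounds (PP β) hc0.le (fun ε => (1 / ε) ^ ((2 - β) / β))
    (fun ε => (1 / ε) ^ (2 / β)) (fun ε => (NN β ε : ℝ)) ?_ ?_
    ⟨C, hC, k, hU⟩ ⟨C', hC', k', hU'⟩ ⟨C'', hC'', k'', hL⟩ ⟨4, by norm_num, 0, ?_⟩ ?_ ?_
  · filter_upwards [eventually_pos] with ε hε
    positivity
  · filter_upwards [eventually_pos] with ε hε
    rw [← Real.rpow_mul (by positivity), h2β]
    congr 1
    field_simp
  · filter_upwards [hL'] with ε h q hq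
    simpa using (h q hq).1
  · exact tendsto_natCast_atTop_atTop.comp (tendsto_NN hβ0)
  · filter_upwards [hL'] with ε h q hq
    exact (h q hq).2

end Pool.Agent.Lib_MP_cc9a35_lc
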