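import Mathlib

/-!
Definitions for testing graph properties in the dense graph (adjacency matrix) model.
-/

namespace Pool.Agent.Lib_MP_cc9a35_lc

open Filter Topology

/-- A deterministic query algorithm for graphs with vertex set `Fin N`, as a decision tree: it either
stops with a verdict, or asks whether `u` and `v` are adjacent and continues with the subtree
belonging to the answer. -/
inductive QueryTree (N : ℕ) : Type
  | answer (verdict : Bool) : QueryTree N
  | query (u v : Fin N) (ifAdj ifNotAdj : QueryTree N) : QueryTree N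

namespace QueryTree

variable {N : ℕ}

/-- `T.Accepts G`: run on the graph `G`, the algorithm `T` stops with the verdict `true`. -/
def Accepts (G : SimpleGraph (Fin N)) : QueryTree N → Prop
  | answer b => b = true
  | query u v t f => (G.Adj u v ∧ Accepts G t) ∨ (¬ G.Adj u v ∧ Accepts G f)

/-- The largest number of queries that the algorithm makes on any input. -/
def depth : QueryTree N → ℕ
  | answer _ => 0
  | query _ _ t f => max t.depth f.depth + 1

/-- The algorithm always asks exactly the queries of the list `L`, in this order, whatever the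
answers are. -/
def QueriesExactly : List (Fin N × Fin N) → QueryTree N → Prop
  | [], answer _ => True
  | e :: L, query u v t f => e = (u, v) ∧ QueriesExactly L t ∧ QueriesExactly L f
  | _, _ => False

/-- The algorithm is non-adaptive: its queries do not depend on the answers. -/
def IsNonadaptive (T : QueryTree N) : Prop := ∃ L : List (Fin N × Fin N), QueriesExactly L T

end QueryTree

/-- A graph property: for every `N` a set of graphs with vertex set `Fin N`, closed under
isomorphism. -/
structure GraphProperty where
  graphs : ∀ N : ℕ, Set (SimpleGraph (Fin N))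
  iso_closed : ∀ {N : ℕ} {G H : SimpleGraph (Fin N)}, Nonempty (G ≃g H) → G ∈ graphs N → H ∈ graphs N

/-- The number of (unordered) vertex pairs on which the graphs `G` and `H` differ. -/
noncomputable def pairDist {N : ℕ} (G H : SimpleGraph (Fin N)) : ℕ :=
  (symmDiff G.edgeSet H.edgeSet).ncard

/-- `G` is `ε`-far from the property `P`: every `N`-vertex graph of `P` differs from `G` on more
than `ε N ^ 2` vertex pairs. -/
def IsFar (P : GraphProperty) (ε : ℝ) {N : ℕ} (G : SimpleGraph (Fin N)) : Prop :=
  ∀ H ∈ P.graphs N, ε * (N : ℝ) ^ 2 < (pairDist G H : ℝ)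

/-- The randomised query algorithm `A` (a probability distribution over deterministic ones) is an
`ε`-tester for `P` on `N`-vertex graphs: it accepts each graph in `P` with probability at least
`2/3` and rejects each graph that is `ε`-far from `P` with probability at least `2/3`. -/
def IsTester (P : GraphProperty) (ε : ℝ) {N : ℕ} (A : PMF (QueryTree N)) : Prop :=
  (∀ G ∈ P.graphs N, 2 / 3 ≤ A.toOuterMeasure {T | T.Accepts G}) ∧
  (∀ G : SimpleGraph (Fin N), IsFar P ε G → 2 / 3 ≤ A.toOuterMeasure {T | ¬ T.Accepts G})

/-- `P` has, for every `N`, an `ε`-tester making at most `q` queries. -/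
def Testable (P : GraphProperty) (ε : ℝ) (q : ℕ) : Prop :=
  ∀ N : ℕ, ∃ A : PMF (QueryTree N), (∀ T ∈ A.support, T.depth ≤ q) ∧ IsTester P ε A

/-- `P` has, for every `N`, a non-adaptive `ε`-tester making at most `q` queries. -/
def NonadaptivelyTestable (P : GraphProperty) (ε : ℝ) (q : ℕ) : Prop :=
  ∀ N : ℕ, ∃ A : PMF (QueryTree N),
    (∀ T ∈ A.support, T.IsNonadaptive ∧ T.depth ≤ q) ∧ IsTester P ε A

/-- `q` is the (adaptive) query complexity of `P`: for every `ε > 0`, the number `q ε` is the least
one such that `P` has `ε`-testers making at most `q ε` queries, for all `N`. -/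
def IsQueryComplexity (P : GraphProperty) (q : ℝ → ℕ) : Prop :=
  ∀ ε > 0, IsLeast {k | Testable P ε k} (q ε)

/-- `s` is the non-adaptive query complexity of `P`. -/
def IsNonadaptiveQueryComplexity (P : GraphProperty) (s : ℝ → ℕ) : Prop :=
  ∀ ε > 0, IsLeast {k | NonadaptivelyTestable P ε k} (s ε)

/-- `f ε = Õ(g ε)` as `ε → 0`: up to a constant and a power of `log (1/ε)`, `f` is at most `g`. -/
def SoftLE (f g : ℝ → ℝ) : Prop :=
  ∃ (C : ℝ) (k : ℕ), ∀ᶠ ε in 𝓝[>] (0 : ℝ), f ε ≤ C * Real.log (1 / ε) ^ k * g ε

/-- The exponent `c` is achievable: some graph property (with unbounded query complexity, which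
excludes trivial ones) has query complexity `q(ε)` and non-adaptive query complexity
`Θ̃(q(ε) ^ c)`. -/
def Achievable (c : ℝ) : Prop :=
  ∃ (P : GraphProperty) (q s : ℝ → ℕ),
    IsQueryComplexity P q ∧ IsNonadaptiveQueryComplexity P s ∧
    Tendsto (fun ε => (q ε : ℝ)) (𝓝[>] 0) atTop ∧
    SoftLE (fun ε => (s ε : ℝ)) (fun ε => (q ε : ℝ) ^ c) ∧
    SoftLE (fun ε => (q ε : ℝ) ^ c) (fun ε => (s ε : ℝ))

end Pool.Agent.Lib_MP_cc9a35_lc
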