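import Pool.Agent.Lib_MP_cc9a35_lc.Upper

/-!
A `d`-wise independent family of bit vectors, and the lower bounds.
-/

namespace Pool.Agent.Lib_MP_cc9a35_lc

open QueryTree
open scoped ENNReal

variable {N : ℕ}

/-! ### Cylinder counts -/

theorem cylinder_card {X V : Type*} [Fintype X] [Fintype V] [DecidableEq X] (b : V → Bool)
    (hb : ∀ c, 2 * Nat.card {v // b v = c} = Fintype.card V) (I : Finset X) (t : X → Bool) :
    2 ^ I.card * Nat.card {z : X → V // ∀ i ∈ I, b (z i) = t i} =
      Fintype.card V ^ Fintype.card X := by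
  classical
  have e : (Finset.univ.filter fun z : X → V => ∀ i ∈ I, b (z i) = t i) =
      Fintype.piFinset fun i => if i ∈ I then Finset.univ.filter (fun v => b v = t i)
        else Finset.univ := by
    ext z
    simp only [Finset.mem_filter, Finset.mem_univ, true_and, Fintype.mem_piFinset]
    refine forall_congr' fun i => ?_
    by_cases hi : i ∈ I <;> simp [hi]
  rw [Nat.card_eq_fintype_card, Fintype.card_subtype, e, Fintype.card_piFinset]
  have h1 : (2 : ℕ) ^ I.card = ∏ x : X, if x ∈ I then 2 else 1 := by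
    rw [Finset.prod_ite_mem, Finset.univ_inter, Finset.prod_const]
  rw [h1, ← Finset.prod_mul_distrib, ← Finset.card_univ (α := X), ← Finset.prod_const]
  refine Finset.prod_congr rfl fun i _ => ?_
  by_cases hi : i ∈ I
  · simp only [hi, if_true]
    rw [← hb (t i), Nat.card_eq_fintype_card, Fintype.card_subtype]
  · simp [hi, Finset.card_univ]

/-! ### Random polynomials of low degree -/

section Poly

variable (F : Type) [Field F] [Fintype F]

/-- Polynomials of degree less than `d`. -/
abbrev Poly (d : ℕ) : Type := Polynomial.degreeLT F d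

noncomputable instance (d : ℕ) : Fintype (Poly F d) :=
  Fintype.ofEquiv (Fin d → F) (Polynomial.degreeLTEquiv F d).symm.toEquiv

theorem card_poly (d : ℕ) : Fintype.card (Poly F d) = Fintype.card F ^ d := by
  rw [Fintype.card_congr (Polynomial.degreeLTEquiv F d).toEquiv]
  simp

variable {F}

/-- The bits of a polynomial. -/
noncomputable def bits {X : Type*} (a : X ↪ F) (b : F → Bool) {d : ℕ} (p : Poly F d) (i : X) : Bool :=
  b ((p : Polynomial F).eval (a i))

theorem bits_cylinder {X : Type*} [Fintype X] [DecidableEq X] (a : X ↪ F) (b : F → Bool)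
    (hb : ∀ c, 2 * Nat.card {v // b v = c} = Fintype.card F) {d : ℕ} (hd : d ≤ Fintype.card X)
    (I : Finset X) (hI : I.card ≤ d) (t : X → Bool) :
    2 ^ I.card * Nat.card {p : Poly F d // ∀ i ∈ I, bits a b p i = t i} =
      Fintype.card F ^ d := by
  classical
  obtain ⟨J, hIJ, rfl⟩ := Finset.exists_superset_card_eq hI hd
  have e := (Lagrange.funEquivDegreeLT (F := F) (s := J) (v := a) a.injective.injOn)
  have h1 : Nat.card {p : Poly F J.card // ∀ i ∈ I, bits a b p i = t i} =
      Nat.card {z : J → F // ∀ i ∈ I.subtype (· ∈ J), b (z i) = t i} := by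
    refine Nat.card_congr (Equiv.subtypeEquiv
      (Lagrange.funEquivDegreeLT (F := F) (s := J) (v := a) a.injective.injOn).toEquiv ?_)
    intro p
    constructor
    · intro h i hi
      exact h i (by simpa using hi)
    · intro h i hi
      exact h ⟨i, hIJ hi⟩ (by simpa using hi)
  have h2 : (I.subtype (· ∈ J)).card = I.card := by
    rw [Finset.card_subtype, Finset.filter_true_of_mem (fun i hi => hIJ hi)]
  have h3 := cylinder_card (X := J) b hb (I.subtype (· ∈ J)) (fun i => t i)
  rw [h2] at h3
  rw [h1, h3, Fintype.card_coe]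

/-- The `d`-wise independence, in the form needed for indistinguishability. -/
theorem dwise {X : Type*} [Fintype X] [DecidableEq X] (a : X ↪ F) (b : F → Bool)
    (hb : ∀ c, 2 * Nat.card {v // b v = c} = Fintype.card F) {d : ℕ} (hd : d ≤ Fintype.card X)
    (I : Finset X) (hI : I.card ≤ d) (t : X → Bool) :
    Fintype.card (X → Bool) * Nat.card {p : Poly F d // ∀ i ∈ I, bits a b p i = t i} =
      Fintype.card (Poly F d) * Nat.card {y : X → Bool // ∀ i ∈ I, y i = t i} := by
  have h1 := bits_cylinder a b hb hd I hI t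
  have h2 := cylinder_card (X := X) (V := Bool) id (by
    intro c
    simp) I t
  have h3 : 0 < 2 ^ I.card := by positivity
  refine Nat.eq_of_mul_eq_mul_left h3 ?_
  rw [card_poly, ← h1]
  have h4 : Fintype.card (X → Bool) = 2 ^ I.card * Nat.card {y : X → Bool // ∀ i ∈ I, y i = t i} := by
    rw [Fintype.card_fun]
    exact h2.symm
  rw [h4]
  ring

end Poly

/-! ### Counting permutations -/

theorem exists_perm_two {u v u' v' : Fin N} (h : u ≠ v) (h' : u' ≠ v') :
    ∃ τ : Equiv.Perm (Fin N), τ u' = u ∧ τ v' = v := by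
  refine ⟨(Equiv.swap u' u).trans (Equiv.swap (Equiv.swap u' u v') v), ?_, ?_⟩
  · rw [Equiv.trans_apply, Equiv.swap_apply_left]
    refine Equiv.swap_apply_of_ne_of_ne ?_ h
    intro h1
    have : Equiv.swap u' u u' = Equiv.swap u' u v' := by
      rw [Equiv.swap_apply_left]; exact h1
    exact h' ((Equiv.swap u' u).injective this)
  · rw [Equiv.trans_apply, Equiv.swap_apply_left]

theorem card_perm_pair (r : ℕ) (hr : r ≤ N) {u v : Fin N} (huv : u ≠ v) :
    N * (N - 1) * Nat.card {σ : Equiv.Perm (Fin N) // (σ u : ℕ) < r ∧ (σ v : ℕ) < r} =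
      N.factorial * (r * (r - 1)) := by
  classical
  -- all ordered pairs of distinct vertices have the same count
  have hsame : ∀ e : {e : Fin N × Fin N // e.1 ≠ e.2},
      Nat.card {σ : Equiv.Perm (Fin N) // (σ e.1.1 : ℕ) < r ∧ (σ e.1.2 : ℕ) < r} =
      Nat.card {σ : Equiv.Perm (Fin N) // (σ u : ℕ) < r ∧ (σ v : ℕ) < r} := by
    rintro ⟨⟨x, y⟩, hxy⟩
    obtain ⟨τ, h1, h2⟩ := exists_perm_two (u := x) (v := y) (u' := u) (v' := v) hxy huv
    refine Nat.card_congr (Equiv.subtypeEquiv (Equiv.mulRight τ) ?_)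
    intro σ
    simp [h1, h2]
  have hoff : ∀ (Q : Fin N → Prop), Nat.card {e : Fin N × Fin N // e.1 ≠ e.2 ∧ Q e.1 ∧ Q e.2} =
      Nat.card {x // Q x} * (Nat.card {x // Q x} - 1) := by
    intro Q
    have : (Finset.univ.filter fun e : Fin N × Fin N => e.1 ≠ e.2 ∧ Q e.1 ∧ Q e.2) =
        (Finset.univ.filter Q).offDiag := by
      ext ⟨a, b⟩
      simp only [Finset.mem_filter, Finset.mem_univ, true_and, Finset.mem_offDiag]
      tauto
    rw [Nat.card_eq_fintype_card, Fintype.card_subtype, this, Finset.offDiag_card,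
      Nat.card_eq_fintype_card, Fintype.card_subtype, Nat.mul_sub, mul_one]
  -- double counting
  have h1 : ∑ e : {e : Fin N × Fin N // e.1 ≠ e.2},
      Nat.card {σ : Equiv.Perm (Fin N) // (σ e.1.1 : ℕ) < r ∧ (σ e.1.2 : ℕ) < r} =
      ∑ σ : Equiv.Perm (Fin N), Nat.card {e : {e : Fin N × Fin N // e.1 ≠ e.2} //
        (σ e.1.1 : ℕ) < r ∧ (σ e.1.2 : ℕ) < r} := by
    rw [← card_prod_subtype, ← card_prod_subtype (α := Equiv.Perm (Fin N))
      (β := {e : Fin N × Fin N // e.1 ≠ e.2})
      (fun σ e => (σ e.1.1 : ℕ) < r ∧ (σ e.1.2 : ℕ) < r)]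
    exact Nat.card_congr (Equiv.subtypeEquiv (Equiv.prodComm _ _) (fun _ => Iff.rfl))
  have h2 : ∀ σ : Equiv.Perm (Fin N), Nat.card {e : {e : Fin N × Fin N // e.1 ≠ e.2} //
        (σ e.1.1 : ℕ) < r ∧ (σ e.1.2 : ℕ) < r} = r * (r - 1) := by
    intro σ
    have e : {e : {e : Fin N × Fin N // e.1 ≠ e.2} // (σ e.1.1 : ℕ) < r ∧ (σ e.1.2 : ℕ) < r} ≃
        {e : Fin N × Fin N // e.1 ≠ e.2 ∧ (σ e.1 : ℕ) < r ∧ (σ e.2 : ℕ) < r} :=
      { toFun := fun e => ⟨e.1.1, e.1.2, e.2⟩
        invFun := fun e => ⟨⟨e.1, e.2.1⟩, e.2.2⟩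
        left_inv := fun e => rfl
        right_inv := fun e => rfl }
    rw [Nat.card_congr e, hoff (fun x => (σ x : ℕ) < r), card_lt_subtype hr σ]
  have h3 : Nat.card {e : Fin N × Fin N // e.1 ≠ e.2} = N * (N - 1) := by
    have := hoff (fun _ => True)
    simpa using this
  rw [Finset.sum_congr rfl (fun e _ => hsame e), Finset.sum_congr rfl (fun σ _ => h2 σ),
    Finset.sum_const, Finset.sum_const, Finset.card_univ, Finset.card_univ, Fintype.card_perm,
    Fintype.card_fin, smul_eq_mul, smul_eq_mul, ← Nat.card_eq_fintype_card, h3] at h1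
  exact h1

/-! ### Few graphs are close to the property -/

theorem card_subsets_le {X : Type*} [Fintype X] [DecidableEq X] (D : ℕ) :
    Nat.card {S : Finset X // S.card ≤ D} ≤ (Fintype.card X + 1) ^ D := by
  classical
  -- surject from functions `Fin D → Option X`
  have h : Function.Surjective (fun f : Fin D → Option X =>
      (⟨Finset.univ.filter fun x => ∃ i, f i = some x, by
        have h2 : (Finset.univ.filter fun x => ∃ i, f i = some x).card ≤
            (Finset.univ.image f).card := by
          refine Finset.card_le_card_of_injOn some ?_ (Option.some_injective _).injOn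
          intro x hx
          simpa using hx
        have h3 : (Finset.univ.image f).card ≤ D := by
          have := Finset.card_image_le (s := (Finset.univ : Finset (Fin D))) (f := f)
          simpa using this
        exact h2.trans h3⟩ : {S : Finset X // S.card ≤ D})) := by
    rintro ⟨S, hS⟩
    have e := S.equivFin
    refine ⟨fun i => if h : (i : ℕ) < S.card then some (S.equivFin.symm ⟨i, h⟩ : X) else none, ?_⟩
    apply Subtype.ext
    ext x
    simp only [Finset.mem_filter, Finset.mem_univ, true_and]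
    constructor
    · rintro ⟨i, hi⟩
      split_ifs at hi with h
      simp only [Option.some.injEq] at hi
      rw [← hi]
      exact (S.equivFin.symm ⟨i, h⟩).2
    · intro hx
      refine ⟨⟨S.equivFin ⟨x, hx⟩, lt_of_lt_of_le (S.equivFin ⟨x, hx⟩).2 hS⟩, ?_⟩
      simp
  have := Nat.card_le_card_of_surjective _ h
  refine this.trans (le_of_eq ?_)
  simp [Nat.card_eq_fintype_card]

theorem card_near (r D : ℕ) (hr : r ≤ N) (H : SimpleGraph (Fin N)) :
    Nat.card {y : Pairs r → Bool // pairDist (base r y) H ≤ D} ≤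
      (Fintype.card (Pairs r) + 1) ^ D := by
  classical
  refine le_trans ?_ (card_subsets_le (X := Pairs r) D)
  -- the pair of `Fin N` belonging to a coordinate
  let emb : Pairs r → Sym2 (Fin N) := fun i => i.1.map (Fin.castLE hr)
  have hemb : Function.Injective emb := by
    intro i j hij
    exact Subtype.ext (Sym2.map.injective (Fin.castLE_injective hr) hij)
  have hbase : ∀ (y : Pairs r → Bool) (i : Pairs r), emb i ∈ (base r y : SimpleGraph (Fin N)).edgeSet ↔ y i = true := by
    rintro y ⟨i, hi⟩
    induction i using Sym2.ind with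
    | _ u v =>
      have huv : u ≠ v := by simpa using hi
      change s(Fin.castLE hr u, Fin.castLE hr v) ∈ _ ↔ _
      rw [SimpleGraph.mem_edgeSet]
      refine base_adj_some ?_
      unfold coord
      rw [dif_pos ⟨u.2, v.2, fun h => huv (Fin.castLE_injective hr h)⟩]
      rfl
  refine Nat.card_le_card_of_injective
    (fun y => (⟨Finset.univ.filter fun i : Pairs r => ¬ (y.1 i = true ↔ emb i ∈ H.edgeSet), ?_⟩ :
      {S : Finset (Pairs r) // S.card ≤ D})) ?_
  · refine le_trans ?_ y.2
    unfold pairDist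
    rw [← Finset.card_image_of_injective _ hemb, ← Set.ncard_coe_finset]
    refine Set.ncard_le_ncard ?_ (Set.toFinite _)
    intro e he
    simp only [Finset.coe_image, Finset.coe_filter, Finset.mem_univ, true_and, Set.mem_image,
      Set.mem_ofPred_eq] at he
    obtain ⟨i, hi, rfl⟩ := he
    rw [Set.mem_symmDiff, hbase]
    tauto
  · rintro ⟨y, hy⟩ ⟨z, hz⟩ h
    simp only [Subtype.mk.injEq] at h
    apply Subtype.ext
    funext i
    have := Finset.ext_iff.1 h i
    simp only [Finset.mem_filter, Finset.mem_univ, true_and] at this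
    rw [Bool.eq_iff_iff]
    tauto

end Pool.Agent.Lib_MP_cc9a35_lc
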