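import Pool.Agent.Lib_MP_cc9a35_lc.Lower

/-!
The lower bounds for testers of `prop r Y`.
-/

namespace Pool.Agent.Lib_MP_cc9a35_lc

open QueryTree
open scoped ENNReal

variable {N : ℕ}

theorem card_near_prop (r : ℕ → ℕ) (Y : ∀ N, Set (Pairs (r N) → Bool)) (hr : 10 * r N ≤ N)
    {Ω : Type} [Fintype Ω] (β : Ω → Pairs (r N) → Bool) (hY : Y N = Set.range β) (D : ℕ) :
    Nat.card {y : Pairs (r N) → Bool // ∃ H ∈ (prop r Y).graphs N, pairDist (base (r N) y) H ≤ D} ≤
      (2 ^ N + N.factorial * Fintype.card Ω) * (Fintype.card (Pairs (r N)) + 1) ^ D := by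
  classical
  let dec : Set (Fin N) ⊕ (Equiv.Perm (Fin N) × Ω) → SimpleGraph (Fin N) := fun c =>
    match c with
    | .inl R => cutGraph R
    | .inr (σ, ω) => (base (r N) (β ω)).comap σ
  have h1 : Nat.card {y : Pairs (r N) → Bool //
      ∃ H ∈ (prop r Y).graphs N, pairDist (base (r N) y) H ≤ D} ≤
      ∑ c : Set (Fin N) ⊕ (Equiv.Perm (Fin N) × Ω),
        Nat.card {y : Pairs (r N) → Bool // pairDist (base (r N) y) (dec c) ≤ D} := by
    simp only [Nat.card_eq_fintype_card, Fintype.card_subtype]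
    refine le_trans (Finset.card_le_card ?_) Finset.card_biUnion_le
    intro y hy
    simp only [Finset.mem_filter, Finset.mem_univ, true_and, Finset.mem_biUnion] at hy ⊢
    obtain ⟨H, hH, hD⟩ := hy
    rcases hH with ⟨R, rfl⟩ | ⟨_, z, hz, σ, rfl⟩
    · exact ⟨.inl R, hD⟩
    · rw [hY] at hz
      obtain ⟨ω, rfl⟩ := hz
      exact ⟨.inr (σ, ω), hD⟩
  refine h1.trans ?_
  refine (Finset.sum_le_sum fun c _ => card_near (r N) D (by omega) (dec c)).trans ?_
  rw [Finset.sum_const, smul_eq_mul, Finset.card_univ]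
  refine le_of_eq ?_
  congr 1
  rw [Fintype.card_sum, Fintype.card_set, Fintype.card_prod, Fintype.card_perm, Fintype.card_fin]

theorem isFar_comap (P : GraphProperty) (ε : ℝ) (G : SimpleGraph (Fin N))
    (σ : Equiv.Perm (Fin N)) (h : IsFar P ε G) : IsFar P ε (G.comap σ) := by
  intro H hH
  have h1 : H.comap σ.symm ∈ P.graphs N := by
    refine P.iso_closed ⟨?_⟩ hH
    exact (SimpleGraph.Iso.comap σ.symm H).symm
  have h2 := h _ h1
  have h3 : pairDist (G.comap σ) ((H.comap σ.symm).comap σ) = pairDist G (H.comap σ.symm) :=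
    pairDist_comap _ _ _
  have h4 : (H.comap σ.symm).comap σ = H := by
    ext u v
    simp
  rw [h4] at h3
  rw [h3]
  exact h2

/-- The coordinate of a pair after relabelling the vertices by `σ`. -/
def coordσ (r : ℕ) (σ : Equiv.Perm (Fin N)) (u v : Fin N) : Option (Pairs r) :=
  coord r (σ u) (σ v)

theorem tree_bound (r d : ℕ) {Ω : Type} [Fintype Ω] (β : Ω → Pairs r → Bool)
    (hβ : ∀ I : Finset (Pairs r), I.card ≤ d → ∀ t : Pairs r → Bool,
      Fintype.card (Pairs r → Bool) * Nat.card {ω : Ω // ∀ i ∈ I, β ω i = t i} =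
      Fintype.card Ω * Nat.card {y : Pairs r → Bool // ∀ i ∈ I, y i = t i})
    (T : QueryTree N)
    (hT : 10 * Nat.card {σ : Equiv.Perm (Fin N) // ¬ hiddenDepth (coordσ r σ) T ≤ d} ≤
      N.factorial) :
    10 * Fintype.card (Equiv.Perm (Fin N) × (Pairs r → Bool)) *
      Nat.card {ω : Equiv.Perm (Fin N) × Ω // T.Accepts ((base r (β ω.2)).comap ω.1)} ≤
    10 * Fintype.card (Equiv.Perm (Fin N) × Ω) *
      Nat.card {ω : Equiv.Perm (Fin N) × (Pairs r → Bool) // T.Accepts ((base r ω.2).comap ω.1)} +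
      Fintype.card (Equiv.Perm (Fin N) × Ω) *
        Fintype.card (Equiv.Perm (Fin N) × (Pairs r → Bool)) := by
  classical
  rw [card_prod_subtype (fun (σ : Equiv.Perm (Fin N)) (ω : Ω) =>
      T.Accepts ((base r (β ω)).comap σ)),
    card_prod_subtype (fun (σ : Equiv.Perm (Fin N)) (y : Pairs r → Bool) =>
      T.Accepts ((base r y).comap σ))]
  rw [Fintype.card_prod, Fintype.card_prod, Fintype.card_perm, Fintype.card_fin]
  set n₂ := Fintype.card (Pairs r → Bool) with hn₂
  set n₁ := Fintype.card Ω with hn₁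
  set bad := Nat.card {σ : Equiv.Perm (Fin N) // ¬ hiddenDepth (coordσ r σ) T ≤ d} with hbad
  have key : ∀ σ : Equiv.Perm (Fin N),
      n₂ * Nat.card {ω : Ω // T.Accepts ((base r (β ω)).comap σ)} ≤
      n₁ * Nat.card {y : Pairs r → Bool // T.Accepts ((base r y).comap σ)} +
        if ¬ hiddenDepth (coordσ r σ) T ≤ d then n₁ * n₂ else 0 := by
    intro σ
    by_cases hσ : hiddenDepth (coordσ r σ) T ≤ d
    · simp only [hσ, not_true_eq_false, if_false, add_zero]
      refine le_of_eq (indist (Ω₁ := Ω) (Ω₂ := Pairs r → Bool) (coordσ r σ)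
        (fun u v => ¬ ((σ u : ℕ) < r ↔ (σ v : ℕ) < r)) β id
        (fun ω => (base r (β ω)).comap σ) (fun y => (base r y).comap σ) ?_ ?_ d hβ T hσ)
      · intro ω u v
        exact ⟨fun i hi => base_adj_some hi, fun hn => base_adj_none hn⟩
      · intro ω u v
        exact ⟨fun i hi => base_adj_some hi, fun hn => base_adj_none hn⟩
    · simp only [hσ, not_false_eq_true, if_true]
      have h1 : Nat.card {ω : Ω // T.Accepts ((base r (β ω)).comap σ)} ≤ n₁ := by
        rw [Nat.card_eq_fintype_card]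
        exact Fintype.card_subtype_le _
      calc n₂ * Nat.card {ω : Ω // T.Accepts ((base r (β ω)).comap σ)} ≤ n₂ * n₁ := by gcongr
        _ = n₁ * n₂ := mul_comm _ _
        _ ≤ _ := Nat.le_add_left _ _
  have hsum := Finset.sum_le_sum fun (σ : Equiv.Perm (Fin N)) (_ : σ ∈ Finset.univ) => key σ
  rw [← Finset.mul_sum, Finset.sum_add_distrib, ← Finset.mul_sum, ← Finset.sum_filter,
    Finset.sum_const, smul_eq_mul, ← Fintype.card_subtype, ← Nat.card_eq_fintype_card,
    ← hbad] at hsum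
  set a := ∑ σ : Equiv.Perm (Fin N), Nat.card {ω : Ω // T.Accepts ((base r (β ω)).comap σ)}
  set c := ∑ σ : Equiv.Perm (Fin N),
    Nat.card {y : Pairs r → Bool // T.Accepts ((base r y).comap σ)}
  calc 10 * (N.factorial * n₂) * a = 10 * N.factorial * (n₂ * a) := by ring
    _ ≤ 10 * N.factorial * (n₁ * c + bad * (n₁ * n₂)) := by gcongr
    _ = 10 * (N.factorial * n₁) * c + N.factorial * (n₁ * n₂) * (10 * bad) := by ring
    _ ≤ 10 * (N.factorial * n₁) * c + N.factorial * (n₁ * n₂) * N.factorial := by gcongr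
    _ = _ := by ring

/-- The set `Z` of bit vectors is the range of a small `d`-wise independent family. -/
def Fam (r d D N : ℕ) (Z : Set (Pairs r → Bool)) : Prop :=
  ∃ (Ω : Type) (_ : Fintype Ω) (_ : Nonempty Ω) (β : Ω → Pairs r → Bool),
    Z = Set.range β ∧
    (∀ I : Finset (Pairs r), I.card ≤ d → ∀ t : Pairs r → Bool,
      Fintype.card (Pairs r → Bool) * Nat.card {ω : Ω // ∀ i ∈ I, β ω i = t i} =
      Fintype.card Ω * Nat.card {y : Pairs r → Bool // ∀ i ∈ I, y i = t i}) ∧
    100 * ((2 ^ N + N.factorial * Fintype.card Ω) * (Fintype.card (Pairs r) + 1) ^ D) ≤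
      Fintype.card (Pairs r → Bool)

/-- Hypotheses under which `prop r Y` is hard on `N`-vertex graphs. -/
structure Hard (r : ℕ → ℕ) (Y : ∀ N, Set (Pairs (r N) → Bool)) (N d D : ℕ) : Prop where
  hr : 10 * r N ≤ N
  fam : Fam (r N) d D N (Y N)

theorem no_tester (r : ℕ → ℕ) (Y : ∀ N, Set (Pairs (r N) → Bool)) {N d D : ℕ}
    (hH : Hard r Y N d D) {ε : ℝ} (hε : ε * (N : ℝ) ^ 2 < D + 1) (A : PMF (QueryTree N))
    (hA : IsTester (prop r Y) ε A)
    (hT : ∀ T ∈ A.support,
      10 * Nat.card {σ : Equiv.Perm (Fin N) // ¬ hiddenDepth (coordσ (r N) σ) T ≤ d} ≤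
      N.factorial) : False := by
  classical
  obtain ⟨Ω, iF, iN, β, hY, hβ, hcount⟩ := hH.fam
  refine lower_bound_core (prop r Y) ε A hA (Ω₁ := Equiv.Perm (Fin N) × Ω)
    (Ω₂ := Equiv.Perm (Fin N) × (Pairs (r N) → Bool))
    (fun ω => (base (r N) (β ω.2)).comap ω.1) (fun ω => (base (r N) ω.2).comap ω.1) ?_ ?_ ?_
  · rintro ⟨σ, ω⟩
    exact Or.inr ⟨hH.hr, β ω, by rw [hY]; exact ⟨ω, rfl⟩, σ, rfl⟩
  · have h1 := card_near_prop r Y hH.hr β hY D
    have h2 : Nat.card {ω : Equiv.Perm (Fin N) × (Pairs (r N) → Bool) //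
        ¬ IsFar (prop r Y) ε ((base (r N) ω.2).comap ω.1)} ≤
        N.factorial * Nat.card {y : Pairs (r N) → Bool //
          ∃ H ∈ (prop r Y).graphs N, pairDist (base (r N) y) H ≤ D} := by
      rw [card_prod_subtype (fun (σ : Equiv.Perm (Fin N)) (y : Pairs (r N) → Bool) =>
        ¬ IsFar (prop r Y) ε ((base (r N) y).comap σ))]
      have h3 : ∀ σ : Equiv.Perm (Fin N), Nat.card {y : Pairs (r N) → Bool //
          ¬ IsFar (prop r Y) ε ((base (r N) y).comap σ)} ≤
          Nat.card {y : Pairs (r N) → Bool //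
            ∃ H ∈ (prop r Y).graphs N, pairDist (base (r N) y) H ≤ D} := by
        intro σ
        simp only [Nat.card_eq_fintype_card, Fintype.card_subtype]
        refine Finset.card_le_card ?_
        intro y hy
        simp only [Finset.mem_filter, Finset.mem_univ, true_and] at hy ⊢
        have hy' : ¬ IsFar (prop r Y) ε (base (r N) y) := fun h => hy (isFar_comap _ _ _ _ h)
        unfold IsFar at hy'
        push Not at hy'
        obtain ⟨H, hH1, hH2⟩ := hy'
        refine ⟨H, hH1, ?_⟩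
        have : (pairDist (base (r N) y) H : ℝ) < D + 1 := lt_of_le_of_lt hH2 hε
        exact Nat.lt_succ_iff.1 (by exact_mod_cast this)
      refine (Finset.sum_le_sum fun σ _ => h3 σ).trans ?_
      rw [Finset.sum_const, Finset.card_univ, Fintype.card_perm, Fintype.card_fin, smul_eq_mul]
    rw [Fintype.card_prod, Fintype.card_perm, Fintype.card_fin]
    calc 100 * Nat.card {ω : Equiv.Perm (Fin N) × (Pairs (r N) → Bool) //
        ¬ IsFar (prop r Y) ε ((base (r N) ω.2).comap ω.1)}
        ≤ 100 * (N.factorial * ((2 ^ N + N.factorial * Fintype.card Ω) *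
          (Fintype.card (Pairs (r N)) + 1) ^ D)) := by
          gcongr
          exact h2.trans (Nat.mul_le_mul_left _ h1)
      _ = N.factorial * (100 * ((2 ^ N + N.factorial * Fintype.card Ω) *
          (Fintype.card (Pairs (r N)) + 1) ^ D)) := by ring
      _ ≤ _ := by gcongr
  · intro T hTs
    exact tree_bound (r N) d β hβ T (hT T hTs)

/-- Adaptive lower bound. -/
theorem adaptive_lower (r : ℕ → ℕ) (Y : ∀ N, Set (Pairs (r N) → Bool)) {N d D : ℕ}
    (hH : Hard r Y N d D) {ε : ℝ} (hε : ε * (N : ℝ) ^ 2 < D + 1) {q : ℕ}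
    (hq : Testable (prop r Y) ε q) : d < q := by
  by_contra hle
  obtain ⟨A, h1, h2⟩ := hq N
  refine no_tester r Y hH hε A h2 fun T hT => ?_
  have : IsEmpty {σ : Equiv.Perm (Fin N) // ¬ hiddenDepth (coordσ (r N) σ) T ≤ d} := by
    refine ⟨fun σ => σ.2 ?_⟩
    have := hiddenDepth_le_depth (coordσ (r N) σ.1) T
    have := h1 T hT
    omega
  rw [Nat.card_of_isEmpty]
  exact Nat.zero_le _

theorem sum_hiddenCount (r : ℕ) (hr : r ≤ N) (L : List (Fin N × Fin N)) :
    N * (N - 1) * ∑ σ : Equiv.Perm (Fin N), hiddenCount (coordσ r σ) L ≤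
      L.length * (N.factorial * (r * (r - 1))) := by
  classical
  induction L with
  | nil => simp [hiddenCount]
  | cons e L ih =>
    have h1 : ∀ σ : Equiv.Perm (Fin N), hiddenCount (coordσ r σ) (e :: L) =
        hiddenCount (coordσ r σ) L + if (coordσ r σ e.1 e.2).isSome then 1 else 0 := by
      intro σ
      simp [hiddenCount, List.countP_cons]
    simp only [h1]
    rw [Finset.sum_add_distrib, mul_add, List.length_cons, add_mul, one_mul]
    refine add_le_add ih ?_
    rw [← Finset.sum_filter, Finset.sum_const, smul_eq_mul, mul_one]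
    by_cases he : e.1 = e.2
    · have : (Finset.univ.filter fun σ : Equiv.Perm (Fin N) =>
          (coordσ r σ e.1 e.2).isSome = true) = ∅ := by
        ext σ
        simp [coordσ, coord_isSome, he]
      rw [this]
      simp
    · refine le_of_eq ?_
      rw [← card_perm_pair r hr he, Nat.card_eq_fintype_card, Fintype.card_subtype]
      congr 2
      ext σ
      simp [coordσ, coord_isSome, he]

/-- Non-adaptive lower bound. -/
theorem nonadaptive_lower (r : ℕ → ℕ) (Y : ∀ N, Set (Pairs (r N) → Bool)) {N d D : ℕ}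
    (hH : Hard r Y N d D) {ε : ℝ} (hε : ε * (N : ℝ) ^ 2 < D + 1) {q : ℕ}
    (hq : NonadaptivelyTestable (prop r Y) ε q) :
    (d + 1) * (N * (N - 1)) < 10 * q * (r N * (r N - 1)) := by
  classical
  by_contra hle
  push Not at hle
  obtain ⟨A, h1, h2⟩ := hq N
  refine no_tester r Y hH hε A h2 fun T hT => ?_
  obtain ⟨⟨L, hL⟩, hdep⟩ := h1 T hT
  have hr : r N ≤ N := by have := hH.hr; omega
  have h3 := sum_hiddenCount (r N) hr L
  have h4 : ∀ σ : Equiv.Perm (Fin N), hiddenDepth (coordσ (r N) σ) T =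
      hiddenCount (coordσ (r N) σ) L ∧ T.depth = L.length :=
    fun σ => hiddenDepth_of_queriesExactly _ T L hL
  have h5 : L.length ≤ q := by
    have := (h4 1).2
    omega
  set bad := Nat.card {σ : Equiv.Perm (Fin N) // ¬ hiddenDepth (coordσ (r N) σ) T ≤ d} with hbad
  have h6 : bad * (d + 1) ≤ ∑ σ : Equiv.Perm (Fin N), hiddenCount (coordσ (r N) σ) L := by
    rw [hbad, Nat.card_eq_fintype_card, Fintype.card_subtype, ← smul_eq_mul, ← Finset.sum_const,
      Finset.sum_filter]
    refine Finset.sum_le_sum fun σ _ => ?_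
    by_cases h : hiddenDepth (coordσ (r N) σ) T ≤ d
    · simp [h]
    · rw [if_pos h]
      have := (h4 σ).1
      omega
  rcases Nat.eq_zero_or_pos (N * (N - 1)) with h0 | hpos
  · -- then `N ≤ 1` and `r N = 0`, so there are no hidden queries
    have hN : N ≤ 1 := by
      rcases Nat.mul_eq_zero.1 h0 with h | h <;> omega
    have hr0 : r N = 0 := by have := hH.hr; omega
    have hb : IsEmpty {σ : Equiv.Perm (Fin N) // ¬ hiddenDepth (coordσ (r N) σ) T ≤ d} := by
      refine ⟨fun σ => σ.2 ?_⟩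
      rw [(h4 σ.1).1]
      have : hiddenCount (coordσ (r N) σ.1) L = 0 := by
        unfold hiddenCount
        rw [List.countP_eq_zero]
        intro e _
        simp [coordσ, coord_isSome, hr0]
      omega
    rw [hbad, Nat.card_of_isEmpty]
    exact Nat.zero_le _
  · have h7 : (N * (N - 1) * (d + 1)) * (10 * bad) ≤ (N * (N - 1) * (d + 1)) * N.factorial := by
      calc (N * (N - 1) * (d + 1)) * (10 * bad) = 10 * (N * (N - 1) * (bad * (d + 1))) := by ring
        _ ≤ 10 * (N * (N - 1) * ∑ σ : Equiv.Perm (Fin N), hiddenCount (coordσ (r N) σ) L) := by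
            gcongr
        _ ≤ 10 * (L.length * (N.factorial * (r N * (r N - 1)))) := by gcongr
        _ ≤ 10 * (q * (N.factorial * (r N * (r N - 1)))) := by gcongr
        _ = (10 * q * (r N * (r N - 1))) * N.factorial := by ring
        _ ≤ ((d + 1) * (N * (N - 1))) * N.factorial := by gcongr
        _ = _ := by ring
    exact Nat.le_of_mul_le_mul_left h7 (by positivity)

end Pool.Agent.Lib_MP_cc9a35_lc
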