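import Pool.Agent.Lib_MP_cc9a35_lc.Bounds

/-!
The exponent `1`.
-/

namespace Pool.Agent.Lib_MP_cc9a35_lc

open QueryTree Filter Topology

variable {N : ℕ}

/-- The property of being a cut graph (a complete bipartite graph, possibly with an empty side). -/
noncomputable def PCut : GraphProperty := prop (fun N => N + 1) (fun _ => ∅)

theorem mem_PCut {G : SimpleGraph (Fin N)} : G ∈ PCut.graphs N ↔ ∃ R, G = cutGraph R := by
  constructor
  · rintro (h | ⟨h, _⟩)
    · exact h
    · dsimp only at h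
      omega
  · exact fun h => Or.inl h

/-- The graph with the single edge `e`. -/
def single (e : Sym2 (Fin N)) : SimpleGraph (Fin N) := SimpleGraph.fromEdgeSet {e}

theorem card_path_le (T : QueryTree N) :
    Nat.card {e : Pairs N // ¬ (T.Accepts ⊥ ↔ T.Accepts (single e.1))} ≤ T.depth := by
  classical
  induction T with
  | answer b => simp [Accepts]
  | query u v t f _ ihf =>
    simp only [Nat.card_eq_fintype_card, Fintype.card_subtype] at ihf ⊢
    have hsub : (Finset.univ.filter fun e : Pairs N =>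
        ¬ (Accepts ⊥ (.query u v t f) ↔ Accepts (single e.1) (.query u v t f))) ⊆
        (Finset.univ.filter fun e : Pairs N => e.1 = s(u, v)) ∪
        (Finset.univ.filter fun e : Pairs N => ¬ (Accepts ⊥ f ↔ Accepts (single e.1) f)) := by
      intro e he
      simp only [Finset.mem_filter, Finset.mem_univ, true_and, Finset.mem_union] at he ⊢
      by_contra hcon
      push Not at hcon
      obtain ⟨h1, h2⟩ := hcon
      refine he ?_
      have h3 : ¬ (single e.1).Adj u v := by
        unfold single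
        rw [SimpleGraph.fromEdgeSet_adj]
        rintro ⟨h, _⟩
        exact h1 (Set.mem_singleton_iff.1 h).symm
      simp only [Accepts, SimpleGraph.bot_adj, h3, false_and, not_false_eq_true, true_and,
        false_or]
      exact h2
    have h1 : (Finset.univ.filter fun e : Pairs N => e.1 = s(u, v)).card ≤ 1 := by
      rw [Finset.card_le_one]
      intro a ha b hb
      simp only [Finset.mem_filter, Finset.mem_univ, true_and] at ha hb
      exact Subtype.ext (ha.trans hb.symm)
    have h2 := Finset.card_le_card hsub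
    have h3 := Finset.card_union_le
      (Finset.univ.filter fun e : Pairs N => e.1 = s(u, v))
      (Finset.univ.filter fun e : Pairs N => ¬ (Accepts ⊥ f ↔ Accepts (single e.1) f))
    simp only [depth]
    omega

theorem single_not_cut (hN : 3 ≤ N) (e : Pairs N) (R : Set (Fin N)) :
    single e.1 ≠ cutGraph R := by
  obtain ⟨e, he⟩ := e
  induction e using Sym2.ind with
  | _ u v =>
    have huv : u ≠ v := by simpa using he
    intro h
    -- a third vertex
    obtain ⟨w, hw⟩ : ∃ w : Fin N, w ∉ ({u, v} : Finset (Fin N)) := by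
      by_contra hcon
      push Not at hcon
      have h1 : (Finset.univ : Finset (Fin N)) ⊆ {u, v} := fun w _ => hcon w
      have h2 := Finset.card_le_card h1
      have h3 : ({u, v} : Finset (Fin N)).card ≤ 2 := Finset.card_le_two
      simp at h2
      omega
    simp only [Finset.mem_insert, Finset.mem_singleton, not_or] at hw
    have h0 : (single s(u, v)).Adj u v := by
      unfold single
      rw [SimpleGraph.fromEdgeSet_adj]
      exact ⟨rfl, huv⟩
    have h1 : ¬ (single s(u, v)).Adj w u := by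
      unfold single
      rw [SimpleGraph.fromEdgeSet_adj]
      rintro ⟨h, _⟩
      have : w ∈ s(u, v) := by
        rw [← Set.mem_singleton_iff.1 h]
        exact Sym2.mem_mk_left _ _
      rw [Sym2.mem_iff] at this
      exact this.elim hw.1 hw.2
    have h2 : ¬ (single s(u, v)).Adj w v := by
      unfold single
      rw [SimpleGraph.fromEdgeSet_adj]
      rintro ⟨h, _⟩
      have : w ∈ s(u, v) := by
        rw [← Set.mem_singleton_iff.1 h]
        exact Sym2.mem_mk_left _ _
      rw [Sym2.mem_iff] at this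
      exact this.elim hw.1 hw.2
    simp only [h] at h0 h1 h2
    change ¬ (u ∈ R ↔ v ∈ R) at h0
    change ¬ ¬ (w ∈ R ↔ u ∈ R) at h1
    change ¬ ¬ (w ∈ R ↔ v ∈ R) at h2
    tauto

theorem pairDist_pos {G H : SimpleGraph (Fin N)} (h : G ≠ H) : 1 ≤ pairDist G H := by
  classical
  by_contra hcon
  have h0 : pairDist G H = 0 := by omega
  have h1 := card_differ G H
  rw [h0, mul_zero, Nat.card_eq_fintype_card, Fintype.card_eq_zero_iff] at h1
  refine h ?_
  ext u v
  by_contra h2
  exact h1.elim ⟨(u, v), h2⟩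

theorem cutGraph_empty : (cutGraph (∅ : Set (Fin N))) = ⊥ := by
  ext u v
  change ¬ (u ∈ (∅ : Set (Fin N)) ↔ v ∈ (∅ : Set (Fin N))) ↔ _
  simp

theorem lower_PCut {ε : ℝ} {q : ℕ} (hq : Testable PCut ε q) (hN : 3 ≤ N)
    (hε : ε * (N : ℝ) ^ 2 < 1) : N.choose 2 < 10 * q := by
  classical
  by_contra hcon
  push Not at hcon
  obtain ⟨A, h1, h2⟩ := hq N
  have hcard : Fintype.card (Pairs N) = N.choose 2 := card_pairs N
  have hpos : 0 < N.choose 2 := Nat.choose_pos (by omega)
  have hne : Nonempty (Pairs N) := Fintype.card_pos_iff.1 (by rw [hcard]; exact hpos)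
  refine lower_bound_core PCut ε A h2 (Ω₁ := Unit) (Ω₂ := Pairs N) (fun _ => ⊥)
    (fun e => single e.1) ?_ ?_ ?_
  · intro _
    exact mem_PCut.2 ⟨∅, cutGraph_empty.symm⟩
  · have : IsEmpty {e : Pairs N // ¬ IsFar PCut ε (single e.1)} := by
      refine ⟨fun e => e.2 ?_⟩
      intro H hH
      obtain ⟨R, rfl⟩ := mem_PCut.1 hH
      have h3 := pairDist_pos (single_not_cut hN e.1 R)
      have h4 : (1 : ℝ) ≤ (pairDist (single e.1.1) (cutGraph R) : ℝ) := by exact_mod_cast h3
      linarith
    rw [Nat.card_of_isEmpty]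
    exact Nat.zero_le _
  · intro T hT
    have h3 := h1 T hT
    have h4 := card_path_le T
    rw [Fintype.card_unit, hcard]
    by_cases hacc : T.Accepts ⊥
    · have h5 : Nat.card {_ω : Unit // T.Accepts ⊥} = 1 := by
        simp [hacc]
      rw [h5]
      simp only [hacc, true_iff] at h4
      have h6 := card_add_card_not (fun e : Pairs N => T.Accepts (single e.1))
      rw [hcard] at h6
      omega
    · have h5 : Nat.card {_ω : Unit // T.Accepts ⊥} = 0 := by
        simp [hacc]
      rw [h5]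
      omega

/-- sizes for the lower bound -/
noncomputable def N1 (ε : ℝ) : ℕ := ⌊(1 / ε) ^ (1 / 2 : ℝ) / 2⌋₊

theorem tendsto_one_div : Tendsto (fun ε : ℝ => 1 / ε) (𝓝[>] 0) atTop :=
  (tendsto_inv_nhdsGT_zero (𝕜 := ℝ)).congr (fun x => (one_div x).symm)

theorem tendsto_N1 : Tendsto N1 (𝓝[>] 0) atTop := by
  unfold N1
  refine tendsto_nat_floor_atTop.comp (Tendsto.atTop_div_const (by norm_num) ?_)
  exact (tendsto_rpow_atTop (by norm_num)).comp tendsto_one_div

theorem lower_one : ∀ᶠ ε in 𝓝[>] (0 : ℝ), ∀ q : ℕ, Testable PCut ε q → 1 / ε ≤ 640 * q := by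
  have h1 : ∀ᶠ ε in 𝓝[>] (0 : ℝ), 3 ≤ N1 ε := tendsto_N1.eventually (eventually_ge_atTop 3)
  filter_upwards [h1, eventually_pos] with ε hN hε q hq
  set N := N1 ε with hNdef
  have h2 : (N : ℝ) ≤ (1 / ε) ^ (1 / 2 : ℝ) / 2 := Nat.floor_le (by positivity)
  have h3 : (1 / ε) ^ (1 / 2 : ℝ) / 2 < (N : ℝ) + 1 := Nat.lt_floor_add_one _
  have h4 : (3 : ℝ) ≤ N := by exact_mod_cast hN
  have h5 : ((1 / ε) ^ (1 / 2 : ℝ)) ^ 2 = 1 / ε := by
    rw [← Real.rpow_natCast, ← Real.rpow_mul (by positivity)]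
    norm_num
  have h6 : (N : ℝ) ^ 2 ≤ 1 / ε / 4 := by
    calc (N : ℝ) ^ 2 ≤ ((1 / ε) ^ (1 / 2 : ℝ) / 2) ^ 2 := by gcongr
      _ = ((1 / ε) ^ (1 / 2 : ℝ)) ^ 2 / 4 := by ring
      _ = 1 / ε / 4 := by rw [h5]
  have h7 : ε * (N : ℝ) ^ 2 < 1 := by
    calc ε * (N : ℝ) ^ 2 ≤ ε * (1 / ε / 4) := by gcongr
      _ = 1 / 4 := by field_simp
      _ < 1 := by norm_num
  have h8 := lower_PCut hq hN h7
  have h9 : N ^ 2 ≤ 4 * N.choose 2 := by
    have e1 : N.choose 2 * 2 = N * (N - 1) := by
      rw [Nat.choose_two_right]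
      exact Nat.div_mul_cancel (Nat.even_mul_pred_self N).two_dvd
    have e2 : N ≤ 2 * (N - 1) := by omega
    nlinarith
  have h10 : (N : ℝ) ^ 2 ≤ 40 * q := by
    have : N ^ 2 ≤ 40 * q := by omega
    exact_mod_cast this
  have h11 : (1 / ε) ^ (1 / 2 : ℝ) ≤ 4 * N := by linarith
  calc 1 / ε = ((1 / ε) ^ (1 / 2 : ℝ)) ^ 2 := h5.symm
    _ ≤ (4 * (N : ℝ)) ^ 2 := by gcongr
    _ = 16 * (N : ℝ) ^ 2 := by ring
    _ ≤ 16 * (40 * q) := by gcongr
    _ = 640 * q := by ring

theorem upper_one : ∀ᶠ ε in 𝓝[>] (0 : ℝ), ∃ q : ℕ, NonadaptivelyTestable PCut ε q ∧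
    (q : ℝ) ≤ 6 * (1 / ε) := by
  filter_upwards [eventually_pos, eventually_le_one] with ε hε hε1
  set M := ⌈1 / ε⌉₊ with hM
  have hM2 : (M : ℝ) ≤ 2 / ε := ceil_inv_le hε hε1
  refine ⟨3 * M, ?_, ?_⟩
  · intro N
    rcases Nat.eq_zero_or_pos N with hN0 | hN
    · obtain ⟨A, h1, h2⟩ := exact_tester PCut hε N
      refine ⟨A, fun T hT => ⟨(h1 T hT).1, (h1 T hT).2.trans ?_⟩, h2⟩
      rw [hN0]
      exact Nat.zero_le _
    · obtain ⟨A, h1, h2⟩ := cheap_tester (fun N => N + 1) (fun _ => ∅) hN (one_le_mul_ceil hε)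
        (M := M) (by
          intro h
          omega)
      exact ⟨A, h1, h2⟩
  · push_cast
    calc 3 * (M : ℝ) ≤ 3 * (2 / ε) := by gcongr
      _ = 6 * (1 / ε) := by ring

theorem achievable_one : Achievable 1 := by
  refine achievable_of_bounds PCut (c := 1) zero_le_one (fun ε => 1 / ε) (fun ε => 1 / ε)
    (fun ε => (1 / ε) / 640) ?_ ?_ ⟨6, by norm_num, 0, ?_⟩ ⟨6, by norm_num, 0, ?_⟩
    ⟨640, by norm_num, 0, ?_⟩ ⟨640, by norm_num, 0, ?_⟩ ?_ ?_
  · filter_upwards [eventually_pos] with ε hε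
    positivity
  · filter_upwards with ε
    exact Real.rpow_one _
  · filter_upwards [upper_one] with ε h
    obtain ⟨q, h1, h2⟩ := h
    exact ⟨q, h1, by simpa using h2⟩
  · filter_upwards [upper_one] with ε h
    obtain ⟨q, h1, h2⟩ := h
    exact ⟨q, h1.testable, by simpa using h2⟩
  · filter_upwards [lower_one] with ε h q hq
    simpa using h q hq.testable
  · filter_upwards [lower_one] with ε h q hq
    simpa using h q hq
  · exact Tendsto.atTop_div_const (by norm_num) tendsto_one_div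
  · filter_upwards [lower_one] with ε h q hq
    have := h q hq
    linarith

/-- All exponents in `[1, 2]` are achievable. -/
theorem achievable_all {c : ℝ} (hc : c ∈ Set.Icc (1 : ℝ) 2) : Achievable c := by
  rcases eq_or_lt_of_le hc.1 with h | h
  · rw [← h]
    exact achievable_one
  · exact achievable_of_one_lt h hc.2

end Pool.Agent.Lib_MP_cc9a35_lc
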