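import Pool.Agent.Lib_MP_cc9a35_lc.Lower2

/-!
Choice of the parameters.
-/

namespace Pool.Agent.Lib_MP_cc9a35_lc

open QueryTree
open scoped ENNReal

theorem exists_balanced (F : Type) [Fintype F] {m : ℕ} (hm : 0 < m) (hF : Fintype.card F = 2 ^ m) :
    ∃ b : F → Bool, ∀ c, 2 * Nat.card {v // b v = c} = Fintype.card F := by
  classical
  have h : Fintype.card F = Fintype.card (Bool × Fin (2 ^ (m - 1))) := by
    rw [hF, Fintype.card_prod, Fintype.card_bool, Fintype.card_fin, ← pow_succ']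
    congr 1
    omega
  have e := Fintype.equivOfCardEq h
  refine ⟨fun v => (e v).1, fun c => ?_⟩
  have e2 : {v // (e v).1 = c} ≃ Fin (2 ^ (m - 1)) :=
    { toFun := fun v => (e v.1).2
      invFun := fun i => ⟨e.symm (c, i), by simp⟩
      left_inv := by
        rintro ⟨v, rfl⟩
        simp
      right_inv := fun i => by simp }
  rw [Nat.card_congr e2, hF, Nat.card_eq_fintype_card, Fintype.card_fin, ← pow_succ']
  congr 1
  omega

theorem exists_fam {r d D N m : ℕ} (hm : 0 < m) (h1 : Fintype.card (Pairs r) ≤ 2 ^ m)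
    (h2 : d ≤ Fintype.card (Pairs r))
    (h3 : 100 * ((2 ^ N + N.factorial * 2 ^ (m * d)) * (Fintype.card (Pairs r) + 1) ^ D) ≤
      2 ^ Fintype.card (Pairs r)) :
    ∃ Z : Set (Pairs r → Bool), Fam r d D N Z := by
  classical
  have : Fact (Nat.Prime 2) := ⟨Nat.prime_two⟩
  let F := GaloisField 2 m
  have : Fintype F := Fintype.ofFinite F
  have hF : Fintype.card F = 2 ^ m := by
    rw [← Nat.card_eq_fintype_card]
    exact GaloisField.card 2 m hm.ne'
  obtain ⟨b, hb⟩ := exists_balanced F hm hF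
  obtain ⟨a⟩ : Nonempty (Pairs r ↪ F) :=
    Function.Embedding.nonempty_of_card_le (by rw [hF]; exact h1)
  refine ⟨Set.range (fun p : Poly F d => bits a b p), Poly F d, inferInstance, ⟨0⟩,
    fun p => bits a b p, rfl, fun I hI t => dwise a b hb h2 I hI t, ?_⟩
  rw [card_poly, hF, Fintype.card_fun, Fintype.card_bool, ← pow_mul]
  exact h3

theorem card_pairs (r : ℕ) : Fintype.card (Pairs r) = r.choose 2 := by
  rw [Sym2.card_subtype_not_diag]
  simp

/-- number of binary digits -/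
def ell (N : ℕ) : ℕ := Nat.log 2 N + 1

theorem lt_two_pow_ell (N : ℕ) : N < 2 ^ ell N := Nat.lt_pow_succ_log_self (by norm_num) N

theorem ell_pos (N : ℕ) : 0 < ell N := Nat.succ_pos _

theorem hard_arith {N k : ℕ} (hN : 0 < N) (hk : N ≤ k ^ 2) (hr : 10 * (8 * ell N * k) ≤ N) :
    ∃ Z : Set (Pairs (8 * ell N * k) → Bool), Fam (8 * ell N * k) (k ^ 2) (k ^ 2) N Z := by
  have hl : 1 ≤ ell N := ell_pos N
  have hk1 : 1 ≤ k := by
    by_contra h
    have : k = 0 := by omega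
    subst this
    simp at hk
    omega
  set l := ell N with hldef
  set r := 8 * l * k with hrdef
  have hlk : 1 ≤ l * k := Nat.mul_pos hl hk1
  have hr8 : 8 ≤ r := by rw [hrdef, mul_assoc]; omega
  have hrN : r ≤ N := by omega
  have hN2 : N < 2 ^ l := lt_two_pow_ell N
  have hn4 : r ^ 2 ≤ 4 * r.choose 2 := by
    have h1 : r.choose 2 * 2 = r * (r - 1) := by
      rw [Nat.choose_two_right]
      exact Nat.div_mul_cancel (Nat.even_mul_pred_self r).two_dvd
    have h2 : r ≤ 2 * (r - 1) := by omega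
    nlinarith
  have hn2 : r.choose 2 + 1 ≤ N ^ 2 := by
    have h1 : r.choose 2 * 2 = r * (r - 1) := by
      rw [Nat.choose_two_right]
      exact Nat.div_mul_cancel (Nat.even_mul_pred_self r).two_dvd
    have h2 : r * (r - 1) ≤ N * N := Nat.mul_le_mul hrN (by omega)
    nlinarith
  have hn3 : r.choose 2 + 1 ≤ 2 ^ (2 * l) := by
    refine hn2.trans ?_
    rw [mul_comm, pow_mul]
    exact Nat.pow_le_pow_left hN2.le 2
  have hr2 : r ^ 2 = 64 * (l ^ 2 * k ^ 2) := by rw [hrdef]; ring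
  have hdn : k ^ 2 ≤ r.choose 2 := by
    have h1 : 64 * (l ^ 2 * k ^ 2) ≤ 4 * r.choose 2 := hr2 ▸ hn4
    have h2 : 1 ≤ l ^ 2 := Nat.one_le_pow _ _ hl
    have h3 : k ^ 2 ≤ l ^ 2 * k ^ 2 := Nat.le_mul_of_pos_left _ h2
    omega
  refine exists_fam (m := 2 * l) (by omega) (by rw [card_pairs]; omega) (by rw [card_pairs]; omega) ?_
  rw [card_pairs]
  have hfac : N.factorial ≤ 2 ^ (l * N) := by
    calc N.factorial ≤ N ^ N := Nat.factorial_le_pow N
      _ ≤ (2 ^ l) ^ N := Nat.pow_le_pow_left hN2.le N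
      _ = 2 ^ (l * N) := by rw [pow_mul]
  have e1 : 2 ^ N + N.factorial * 2 ^ (2 * l * k ^ 2) ≤ 2 ^ (l * N + 2 * l * k ^ 2 + 1) := by
    have h1 : 2 ^ N ≤ 2 ^ (l * N + 2 * l * k ^ 2) := by
      refine Nat.pow_le_pow_right (by norm_num) ?_
      have : N ≤ l * N := Nat.le_mul_of_pos_left _ hl
      omega
    have h2 : N.factorial * 2 ^ (2 * l * k ^ 2) ≤ 2 ^ (l * N + 2 * l * k ^ 2) := by
      rw [pow_add]
      exact Nat.mul_le_mul_right _ hfac
    have h3 : 2 ^ (l * N + 2 * l * k ^ 2 + 1) =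
        2 ^ (l * N + 2 * l * k ^ 2) + 2 ^ (l * N + 2 * l * k ^ 2) := by
      rw [pow_succ 2 (l * N + 2 * l * k ^ 2), mul_two]
    rw [h3]
    exact Nat.add_le_add h1 h2
  have e2 : (r.choose 2 + 1) ^ k ^ 2 ≤ 2 ^ (2 * l * k ^ 2) := by
    calc (r.choose 2 + 1) ^ k ^ 2 ≤ (2 ^ (2 * l)) ^ k ^ 2 := Nat.pow_le_pow_left hn3 _
      _ = 2 ^ (2 * l * k ^ 2) := by rw [← pow_mul]
  calc 100 * ((2 ^ N + N.factorial * 2 ^ (2 * l * k ^ 2)) * (r.choose 2 + 1) ^ k ^ 2)
      ≤ 2 ^ 7 * (2 ^ (l * N + 2 * l * k ^ 2 + 1) * 2 ^ (2 * l * k ^ 2)) := by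
        gcongr
        norm_num
    _ = 2 ^ (7 + (l * N + 2 * l * k ^ 2 + 1 + 2 * l * k ^ 2)) := by
        rw [← pow_add, ← pow_add]
    _ ≤ 2 ^ r.choose 2 := by
        refine Nat.pow_le_pow_right (by norm_num) ?_
        have h1 : 64 * (l ^ 2 * k ^ 2) ≤ 4 * r.choose 2 := hr2 ▸ hn4
        have h2 : l * N ≤ l * k ^ 2 := Nat.mul_le_mul_left _ hk
        have h3 : 1 ≤ l * k ^ 2 := Nat.mul_pos hl (Nat.pow_pos hk1)
        have h4 : l * k ^ 2 ≤ l ^ 2 * k ^ 2 := by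
          rw [sq l, mul_assoc]
          exact Nat.le_mul_of_pos_left _ hl
        nlinarith

end Pool.Agent.Lib_MP_cc9a35_lc
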