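import Pool.Agent.Lib_MP_cc9a35_lc.Testers

/-!
The graph properties used in the proof, and pair counting.
-/

namespace Pool.Agent.Lib_MP_cc9a35_lc

open QueryTree
open scoped ENNReal

variable {N : ℕ}

/-- The graph of a cut: the complete bipartite graph between `R` and its complement. -/
def cutGraph (R : Set (Fin N)) : SimpleGraph (Fin N) where
  Adj u v := ¬ (u ∈ R ↔ v ∈ R)
  symm := ⟨fun u v h h' => h h'.symm⟩
  loopless := ⟨fun u h => h Iff.rfl⟩

/-- Unordered pairs of distinct elements of `Fin r`. -/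
abbrev Pairs (r : ℕ) : Type := {a : Sym2 (Fin r) // ¬ a.IsDiag}

/-- The pair `{u, v}` as a coordinate, if `u ≠ v` are both smaller than `r`. -/
def coord (r : ℕ) (u v : Fin N) : Option (Pairs r) :=
  if h : (u : ℕ) < r ∧ (v : ℕ) < r ∧ u ≠ v then
    some ⟨s(⟨u, h.1⟩, ⟨v, h.2.1⟩), by
      simp only [Sym2.mk_isDiag_iff, Fin.mk.injEq]
      exact fun h' => h.2.2 (Fin.ext h')⟩
  else none

theorem coord_comm (r : ℕ) (u v : Fin N) : coord r u v = coord r v u := by
  unfold coord
  by_cases h : (u : ℕ) < r ∧ (v : ℕ) < r ∧ u ≠ v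
  · have h' : (v : ℕ) < r ∧ (u : ℕ) < r ∧ v ≠ u := ⟨h.2.1, h.1, h.2.2.symm⟩
    rw [dif_pos h, dif_pos h']
    congr 2
    exact Sym2.eq_swap
  · have h' : ¬ ((v : ℕ) < r ∧ (u : ℕ) < r ∧ v ≠ u) := fun h'' => h ⟨h''.2.1, h''.1, h''.2.2.symm⟩
    rw [dif_neg h, dif_neg h']

theorem coord_isSome {r : ℕ} {u v : Fin N} :
    (coord r u v).isSome ↔ (u : ℕ) < r ∧ (v : ℕ) < r ∧ u ≠ v := by
  unfold coord
  split_ifs with h <;> simp [h]

theorem coord_eq_none {r : ℕ} {u v : Fin N} :
    coord r u v = none ↔ ¬ ((u : ℕ) < r ∧ (v : ℕ) < r ∧ u ≠ v) := by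
  rw [← coord_isSome]
  simp

/-- Adjacency in the graph `base r y`. -/
def baseAdj (r : ℕ) (y : Pairs r → Bool) (u v : Fin N) : Prop :=
  (∃ i, coord r u v = some i ∧ y i = true) ∨ ¬ ((u : ℕ) < r ↔ (v : ℕ) < r)

/-- The cut graph between the first `r` vertices and the other ones, together with the graph
described by `y` on the first `r` vertices. -/
def base (r : ℕ) (y : Pairs r → Bool) : SimpleGraph (Fin N) where
  Adj u v := baseAdj r y u v
  symm := ⟨fun u v h => by
    unfold baseAdj at h ⊢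
    rw [coord_comm r v u, Iff.comm]
    exact h⟩
  loopless := ⟨fun u h => by
    unfold baseAdj at h
    rcases h with ⟨i, h, _⟩ | h
    · have := (coord_isSome (r := r) (u := u) (v := u)).1 (by rw [h]; rfl)
      exact this.2.2 rfl
    · exact h Iff.rfl⟩

theorem base_adj_some {r : ℕ} {y : Pairs r → Bool} {u v : Fin N} {i : Pairs r}
    (h : coord r u v = some i) : (base r y).Adj u v ↔ y i = true := by
  change baseAdj r y u v ↔ _
  unfold baseAdj
  have h' := (coord_isSome (r := r) (u := u) (v := v)).1 (by rw [h]; rfl)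
  simp [h, h'.1, h'.2.1]

theorem base_adj_none {r : ℕ} {y : Pairs r → Bool} {u v : Fin N}
    (h : coord r u v = none) : (base r y).Adj u v ↔ ¬ ((u : ℕ) < r ↔ (v : ℕ) < r) := by
  change baseAdj r y u v ↔ _
  unfold baseAdj
  simp [h]

/-- The property: cut graphs and, if `10 r ≤ N`, graphs isomorphic to a graph `base r y` with
`y ∈ Y N`. -/
def prop (r : ℕ → ℕ) (Y : ∀ N, Set (Pairs (r N) → Bool)) : GraphProperty where
  graphs N := {G | (∃ R : Set (Fin N), G = cutGraph R) ∨
    (10 * r N ≤ N ∧ ∃ y ∈ Y N, ∃ σ : Equiv.Perm (Fin N), G = (base (r N) y).comap σ)}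
  iso_closed := by
    rintro N G H ⟨e⟩ (⟨R, rfl⟩ | ⟨hr, y, hy, σ, rfl⟩)
    · left
      refine ⟨e.symm ⁻¹' R, ?_⟩
      ext u v
      have := e.symm.map_rel_iff (a := u) (b := v)
      rw [← this]
      rfl
    · right
      refine ⟨hr, y, hy, e.symm.toEquiv.trans σ, ?_⟩
      ext u v
      have := e.symm.map_rel_iff (a := u) (b := v)
      rw [← this]
      rfl

theorem cutGraph_mem (r : ℕ → ℕ) (Y : ∀ N, Set (Pairs (r N) → Bool)) (R : Set (Fin N)) :
    cutGraph R ∈ (prop r Y).graphs N := Or.inl ⟨R, rfl⟩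

/-! ### Pair counting -/

theorem edgeSet_symmDiff (G H : SimpleGraph (Fin N)) :
    (symmDiff G H).edgeSet = symmDiff G.edgeSet H.edgeSet := by
  simp [symmDiff]

theorem symmDiff_adj (G H : SimpleGraph (Fin N)) (u v : Fin N) :
    (symmDiff G H).Adj u v ↔ ¬ (G.Adj u v ↔ H.Adj u v) := by
  simp only [symmDiff, SimpleGraph.sup_adj, SimpleGraph.sdiff_adj]
  tauto

/-- The number of ordered pairs on which two graphs differ is twice their distance. -/
theorem card_differ (G H : SimpleGraph (Fin N)) :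
    Nat.card {e : Fin N × Fin N // ¬ (G.Adj e.1 e.2 ↔ H.Adj e.1 e.2)} = 2 * pairDist G H := by
  classical
  have h1 := (symmDiff G H).sum_degrees_eq_twice_card_edges
  have h2 : (symmDiff G H).edgeFinset.card = pairDist G H := by
    unfold pairDist
    rw [← edgeSet_symmDiff, Set.ncard_eq_toFinset_card']
    congr 1
  rw [h2] at h1
  rw [← h1, Nat.card_eq_fintype_card, Fintype.card_subtype]
  have : ∀ u : Fin N, (symmDiff G H).degree u =
      (Finset.univ.filter fun v => ¬ (G.Adj u v ↔ H.Adj u v)).card := by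
    intro u
    rw [← SimpleGraph.card_neighborFinset_eq_degree]
    congr 1
    ext v
    simp [SimpleGraph.mem_neighborFinset, symmDiff_adj]
  simp only [this]
  rw [← Finset.card_sigma]
  refine Finset.card_bij (fun e _ => ⟨e.1, e.2⟩) ?_ ?_ ?_
  · intro e he
    simpa using he
  · rintro ⟨a, b⟩ _ ⟨c, d⟩ _ h
    simpa using h
  · rintro ⟨a, b⟩ h
    exact ⟨(a, b), by simpa using h, rfl⟩

theorem pairDist_comm (G H : SimpleGraph (Fin N)) : pairDist G H = pairDist H G := by
  unfold pairDist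
  rw [symmDiff_comm]

/-- distances are invariant under relabelling -/
theorem pairDist_comap (G H : SimpleGraph (Fin N)) (σ : Equiv.Perm (Fin N)) :
    pairDist (G.comap σ) (H.comap σ) = pairDist G H := by
  have h1 := card_differ (G.comap σ) (H.comap σ)
  have h2 := card_differ G H
  have h3 : Nat.card {e : Fin N × Fin N // ¬ ((G.comap σ).Adj e.1 e.2 ↔ (H.comap σ).Adj e.1 e.2)} =
      Nat.card {e : Fin N × Fin N // ¬ (G.Adj e.1 e.2 ↔ H.Adj e.1 e.2)} := by
    refine Nat.card_congr ?_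
    refine Equiv.subtypeEquiv (Equiv.prodCongr σ σ) ?_
    rintro ⟨u, v⟩
    simp
  omega

end Pool.Agent.Lib_MP_cc9a35_lc
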