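import Pool.Agent.Lib_MP_cc9a35_lc.Params

/-!
From upper and lower bounds up to logarithms to `Achievable`.
-/

namespace Pool.Agent.Lib_MP_cc9a35_lc

open QueryTree Filter Topology

theorem IsFar.mono {P : GraphProperty} {ε ε' : ℝ} (h : ε ≤ ε') {N : ℕ} {G : SimpleGraph (Fin N)}
    (hG : IsFar P ε' G) : IsFar P ε G := by
  intro H hH
  refine lt_of_le_of_lt ?_ (hG H hH)
  gcongr

theorem IsTester.mono {P : GraphProperty} {ε ε' : ℝ} (h : ε ≤ ε') {N : ℕ} {A : PMF (QueryTree N)}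
    (hA : IsTester P ε A) : IsTester P ε' A :=
  ⟨hA.1, fun G hG => hA.2 G (hG.mono h)⟩

theorem Testable.mono {P : GraphProperty} {ε ε' : ℝ} (h : ε ≤ ε') {q : ℕ}
    (hq : Testable P ε q) : Testable P ε' q := by
  intro N
  obtain ⟨A, h1, h2⟩ := hq N
  exact ⟨A, h1, h2.mono h⟩

theorem NonadaptivelyTestable.mono {P : GraphProperty} {ε ε' : ℝ} (h : ε ≤ ε') {q : ℕ}
    (hq : NonadaptivelyTestable P ε q) : NonadaptivelyTestable P ε' q := by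
  intro N
  obtain ⟨A, h1, h2⟩ := hq N
  exact ⟨A, h1, h2.mono h⟩

theorem NonadaptivelyTestable.testable {P : GraphProperty} {ε : ℝ} {q : ℕ}
    (hq : NonadaptivelyTestable P ε q) : Testable P ε q := by
  intro N
  obtain ⟨A, h1, h2⟩ := hq N
  exact ⟨A, fun T hT => (h1 T hT).2, h2⟩

theorem eventually_log_ge_one : ∀ᶠ ε in 𝓝[>] (0 : ℝ), 1 ≤ Real.log (1 / ε) := by
  have h : ∀ᶠ ε in 𝓝[>] (0 : ℝ), ε < Real.exp (-1) :=
    (eventually_lt_nhds (Real.exp_pos (-1))).filter_mono nhdsWithin_le_nhds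
  filter_upwards [h, self_mem_nhdsWithin] with ε h1 h2
  have hε : (0 : ℝ) < ε := h2
  rw [one_div, Real.log_inv]
  have := Real.log_lt_log hε h1
  rw [Real.log_exp] at this
  linarith

theorem achievable_of_bounds (P : GraphProperty) {c : ℝ} (hc : 0 ≤ c) (f g h : ℝ → ℝ)
    (hf0 : ∀ᶠ ε in 𝓝[>] (0 : ℝ), 0 ≤ f ε)
    (hfg : ∀ᶠ ε in 𝓝[>] (0 : ℝ), (f ε) ^ c = g ε)
    (U1 : ∃ C > 0, ∃ k : ℕ, ∀ᶠ ε in 𝓝[>] (0 : ℝ), ∃ q : ℕ, NonadaptivelyTestable P ε q ∧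
      (q : ℝ) ≤ C * Real.log (1 / ε) ^ k * g ε)
    (U2 : ∃ C > 0, ∃ k : ℕ, ∀ᶠ ε in 𝓝[>] (0 : ℝ), ∃ q : ℕ, Testable P ε q ∧
      (q : ℝ) ≤ C * Real.log (1 / ε) ^ k * f ε)
    (L1 : ∃ C > 0, ∃ k : ℕ, ∀ᶠ ε in 𝓝[>] (0 : ℝ), ∀ q : ℕ, NonadaptivelyTestable P ε q →
      g ε ≤ C * Real.log (1 / ε) ^ k * q)
    (L2 : ∃ C > 0, ∃ k : ℕ, ∀ᶠ ε in 𝓝[>] (0 : ℝ), ∀ q : ℕ, Testable P ε q →
      f ε ≤ C * Real.log (1 / ε) ^ k * q)
    (hh : Tendsto h (𝓝[>] 0) atTop)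
    (L3 : ∀ᶠ ε in 𝓝[>] (0 : ℝ), ∀ q : ℕ, Testable P ε q → h ε ≤ q) : Achievable c := by
  have hne1 : ∀ ε > 0, {k | Testable P ε k}.Nonempty := by
    intro ε hε
    obtain ⟨C, _, k, hU⟩ := U2
    have h1 : ∀ᶠ ε' in 𝓝[>] (0 : ℝ), ε' < ε :=
      (eventually_lt_nhds hε).filter_mono nhdsWithin_le_nhds
    obtain ⟨ε', h2, q, h3, _⟩ := (h1.and hU).exists
    exact ⟨q, h3.mono h2.le⟩
  have hne2 : ∀ ε > 0, {k | NonadaptivelyTestable P ε k}.Nonempty := by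
    intro ε hε
    obtain ⟨C, _, k, hU⟩ := U1
    have h1 : ∀ᶠ ε' in 𝓝[>] (0 : ℝ), ε' < ε :=
      (eventually_lt_nhds hε).filter_mono nhdsWithin_le_nhds
    obtain ⟨ε', h2, q, h3, _⟩ := (h1.and hU).exists
    exact ⟨q, h3.mono h2.le⟩
  set q : ℝ → ℕ := fun ε => sInf {k | Testable P ε k} with hq
  set s : ℝ → ℕ := fun ε => sInf {k | NonadaptivelyTestable P ε k} with hs
  have hq1 : ∀ ε > 0, Testable P ε (q ε) := fun ε hε => Nat.sInf_mem (hne1 ε hε)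
  have hs1 : ∀ ε > 0, NonadaptivelyTestable P ε (s ε) := fun ε hε => Nat.sInf_mem (hne2 ε hε)
  have hq2 : ∀ ε k, Testable P ε k → q ε ≤ k := fun ε k hk => Nat.sInf_le hk
  have hs2 : ∀ ε k, NonadaptivelyTestable P ε k → s ε ≤ k := fun ε k hk => Nat.sInf_le hk
  refine ⟨P, q, s, fun ε hε => ⟨hq1 ε hε, fun k hk => hq2 ε k hk⟩,
    fun ε hε => ⟨hs1 ε hε, fun k hk => hs2 ε k hk⟩, ?_, ?_, ?_⟩
  · refine tendsto_atTop_mono' _ ?_ hh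
    filter_upwards [L3, self_mem_nhdsWithin] with ε h1 h2
    exact h1 _ (hq1 ε h2)
  · obtain ⟨C, hC, k, hU⟩ := U1
    obtain ⟨C', hC', k', hL⟩ := L2
    refine ⟨C * C' ^ c, k + ⌈(k' : ℝ) * c⌉₊, ?_⟩
    filter_upwards [hU, hL, hf0, hfg, eventually_log_ge_one, self_mem_nhdsWithin] with
      ε h1 h2 h3 h4 h5 h6
    obtain ⟨n, hn1, hn2⟩ := h1
    have e1 : (s ε : ℝ) ≤ n := by exact_mod_cast hs2 ε n hn1
    have e2 := h2 _ (hq1 ε h6)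
    set l := Real.log (1 / ε) with hl
    have hl0 : (0 : ℝ) ≤ l := by linarith
    have e3 : g ε ≤ C' ^ c * l ^ (⌈(k' : ℝ) * c⌉₊) * (q ε : ℝ) ^ c := by
      rw [← h4]
      calc f ε ^ c ≤ (C' * l ^ k' * (q ε : ℝ)) ^ c := Real.rpow_le_rpow h3 e2 hc
        _ = C' ^ c * (l ^ k') ^ c * (q ε : ℝ) ^ c := by
            rw [Real.mul_rpow (by positivity) (by positivity), Real.mul_rpow hC'.le (by positivity)]
        _ ≤ C' ^ c * l ^ (⌈(k' : ℝ) * c⌉₊) * (q ε : ℝ) ^ c := by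
            gcongr
            rw [← Real.rpow_natCast l k', ← Real.rpow_mul hl0, ← Real.rpow_natCast l]
            exact Real.rpow_le_rpow_of_exponent_le h5 (Nat.le_ceil _)
    calc (s ε : ℝ) ≤ n := e1
      _ ≤ C * l ^ k * g ε := hn2
      _ ≤ C * l ^ k * (C' ^ c * l ^ (⌈(k' : ℝ) * c⌉₊) * (q ε : ℝ) ^ c) := by gcongr
      _ = C * C' ^ c * l ^ (k + ⌈(k' : ℝ) * c⌉₊) * (q ε : ℝ) ^ c := by rw [pow_add]; ring
  · obtain ⟨C, hC, k, hU⟩ := U2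
    obtain ⟨C', hC', k', hL⟩ := L1
    refine ⟨C ^ c * C', ⌈(k : ℝ) * c⌉₊ + k', ?_⟩
    filter_upwards [hU, hL, hf0, hfg, eventually_log_ge_one, self_mem_nhdsWithin] with
      ε h1 h2 h3 h4 h5 h6
    obtain ⟨n, hn1, hn2⟩ := h1
    have e1 : (q ε : ℝ) ≤ n := by exact_mod_cast hq2 ε n hn1
    have e2 := h2 _ (hs1 ε h6)
    set l := Real.log (1 / ε) with hl
    have hl0 : (0 : ℝ) ≤ l := by linarith
    calc (q ε : ℝ) ^ c ≤ (C * l ^ k * f ε) ^ c :=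
          Real.rpow_le_rpow (Nat.cast_nonneg _) (e1.trans hn2) hc
      _ = C ^ c * (l ^ k) ^ c * g ε := by
          rw [Real.mul_rpow (by positivity) h3, Real.mul_rpow hC.le (by positivity), h4]
      _ ≤ C ^ c * l ^ (⌈(k : ℝ) * c⌉₊) * g ε := by
          have hg : 0 ≤ g ε := by rw [← h4]; exact Real.rpow_nonneg h3 c
          gcongr
          rw [← Real.rpow_natCast l k, ← Real.rpow_mul hl0, ← Real.rpow_natCast l]
          exact Real.rpow_le_rpow_of_exponent_le h5 (Nat.le_ceil _)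
      _ ≤ C ^ c * l ^ (⌈(k : ℝ) * c⌉₊) * (C' * l ^ k' * (s ε : ℝ)) := by gcongr
      _ = C ^ c * C' * l ^ (⌈(k : ℝ) * c⌉₊ + k') * (s ε : ℝ) := by rw [pow_add]; ring

end Pool.Agent.Lib_MP_cc9a35_lc
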