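import Pool.Agent.Lib_MP_cc9a35_lc.Trees

/-!
Testers from finitely many seeds, and the averaging argument behind lower bounds.
-/

namespace Pool.Agent.Lib_MP_cc9a35_lc

open QueryTree
open scoped ENNReal

variable {N : ℕ}

theorem isTester_of_seeds {S : Type} [Fintype S] [Nonempty S] (T : S → QueryTree N)
    (P : GraphProperty) (ε : ℝ)
    (hacc : ∀ G ∈ P.graphs N, 2 * Fintype.card S ≤ 3 * Nat.card {s // (T s).Accepts G})
    (hrej : ∀ G, IsFar P ε G → 2 * Fintype.card S ≤ 3 * Nat.card {s // ¬ (T s).Accepts G}) :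
    IsTester P ε ((PMF.uniformOfFintype S).map T) := by
  classical
  have key : ∀ Q : Set (QueryTree N), 2 * Fintype.card S ≤ 3 * Nat.card {s // T s ∈ Q} →
      2 / 3 ≤ ((PMF.uniformOfFintype S).map T).toOuterMeasure Q := by
    intro Q hQ
    rw [PMF.toOuterMeasure_map_apply, PMF.toOuterMeasure_uniformOfFintype_apply]
    have hc : Fintype.card (T ⁻¹' Q) = Nat.card {s // T s ∈ Q} := by
      rw [Nat.card_eq_fintype_card]; rfl
    rw [hc]
    have hS : (0 : ℝ≥0∞) < (Fintype.card S : ℝ≥0∞) := by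
      exact_mod_cast Fintype.card_pos
    rw [ENNReal.le_div_iff_mul_le (Or.inl hS.ne') (Or.inl (ENNReal.natCast_ne_top _)),
      ← ENNReal.mul_div_right_comm, ENNReal.div_le_iff (by norm_num) (by norm_num)]
    rw [mul_comm 3] at hQ
    exact_mod_cast hQ
  exact ⟨fun G hG => key _ (hacc G hG), fun G hG => key _ (hrej G hG)⟩

theorem sum_accept {Ω : Type*} [Fintype Ω] (A : PMF (QueryTree N)) (G : Ω → SimpleGraph (Fin N)) :
    ∑ ω, A.toOuterMeasure {T | T.Accepts (G ω)} =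
      ∑' T, A T * (Nat.card {ω // T.Accepts (G ω)} : ℝ≥0∞) := by
  classical
  simp only [PMF.toOuterMeasure_apply]
  rw [← Summable.tsum_finsetSum (fun _ _ => ENNReal.summable)]
  refine tsum_congr fun T => ?_
  simp only [Set.indicator_apply, Set.mem_ofPred_eq]
  rw [← Finset.sum_filter, Finset.sum_const, Nat.card_eq_fintype_card, Fintype.card_subtype,
    nsmul_eq_mul, mul_comm]

theorem accept_add_reject (A : PMF (QueryTree N)) (G : SimpleGraph (Fin N)) :
    A.toOuterMeasure {T | T.Accepts G} + A.toOuterMeasure {T | ¬ T.Accepts G} = 1 := by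
  classical
  simp only [PMF.toOuterMeasure_apply]
  rw [← ENNReal.tsum_add, ← A.tsum_coe]
  refine tsum_congr fun T => ?_
  by_cases h : T.Accepts G <;> simp [h]

theorem outer_le_one (A : PMF (QueryTree N)) (s : Set (QueryTree N)) :
    A.toOuterMeasure s ≤ 1 := by
  rw [PMF.toOuterMeasure_apply, ← A.tsum_coe]
  exact ENNReal.tsum_le_tsum fun T => Set.indicator_le_self _ _ T

/-- The averaging argument: a tester cannot exist if there are two families of graphs, one in the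
property and one almost always far from it, between which no deterministic algorithm in its support
distinguishes well. -/
theorem lower_bound_core (P : GraphProperty) (ε : ℝ) (A : PMF (QueryTree N)) (hA : IsTester P ε A)
    {Ω₁ Ω₂ : Type*} [Fintype Ω₁] [Fintype Ω₂] [Nonempty Ω₁] [Nonempty Ω₂]
    (G₁ : Ω₁ → SimpleGraph (Fin N)) (G₂ : Ω₂ → SimpleGraph (Fin N))
    (h₁ : ∀ ω, G₁ ω ∈ P.graphs N)
    (h₂ : 100 * Nat.card {ω // ¬ IsFar P ε (G₂ ω)} ≤ Fintype.card Ω₂)
    (h : ∀ T ∈ A.support, 10 * Fintype.card Ω₂ * Nat.card {ω // T.Accepts (G₁ ω)} ≤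
      10 * Fintype.card Ω₁ * Nat.card {ω // T.Accepts (G₂ ω)} + Fintype.card Ω₁ * Fintype.card Ω₂) :
    False := by
  classical
  set n₁ := Fintype.card Ω₁ with hn₁
  set n₂ := Fintype.card Ω₂ with hn₂
  have hn₁pos : 0 < n₁ := Fintype.card_pos
  have hn₂pos : 0 < n₂ := Fintype.card_pos
  set X : ℝ≥0∞ := ∑ ω, A.toOuterMeasure {T | T.Accepts (G₁ ω)} with hX
  set Z : ℝ≥0∞ := ∑ ω, A.toOuterMeasure {T | T.Accepts (G₂ ω)} with hZ
  have hXlow : (n₁ : ℝ≥0∞) * (2 / 3) ≤ X := by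
    have : ∑ _ω : Ω₁, (2 / 3 : ℝ≥0∞) ≤ X := Finset.sum_le_sum fun ω _ => hA.1 _ (h₁ ω)
    simpa [Finset.sum_const, hn₁] using this
  have hXtop : X ≤ n₁ := by
    have : X ≤ ∑ _ω : Ω₁, (1 : ℝ≥0∞) := Finset.sum_le_sum fun ω _ => outer_le_one _ _
    simpa [Finset.sum_const, hn₁] using this
  have hZtop : Z ≤ n₂ := by
    have : Z ≤ ∑ _ω : Ω₂, (1 : ℝ≥0∞) := Finset.sum_le_sum fun ω _ => outer_le_one _ _
    simpa [Finset.sum_const, hn₂] using this
  have hZup : Z ≤ (n₂ : ℝ≥0∞) * (1 / 3) + (Nat.card {ω // ¬ IsFar P ε (G₂ ω)} : ℝ≥0∞) := by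
    have hle : Z ≤ ∑ ω : Ω₂, ((1 / 3 : ℝ≥0∞) + if ¬ IsFar P ε (G₂ ω) then 1 else 0) := by
      refine Finset.sum_le_sum fun ω _ => ?_
      by_cases hf : IsFar P ε (G₂ ω)
      · simp only [hf, not_true_eq_false, if_false, add_zero]
        have h1 := hA.2 _ hf
        have h2 := accept_add_reject A (G₂ ω)
        set a := A.toOuterMeasure {T | T.Accepts (G₂ ω)}
        set b := A.toOuterMeasure {T | ¬ T.Accepts (G₂ ω)}
        have ha : a ≤ 1 := outer_le_one _ _
        have hb : b ≤ 1 := outer_le_one _ _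
        have ha' : a ≠ ⊤ := ne_top_of_le_ne_top ENNReal.one_ne_top ha
        have hb' : b ≠ ⊤ := ne_top_of_le_ne_top ENNReal.one_ne_top hb
        have h3 : a.toReal + b.toReal = 1 := by
          rw [← ENNReal.toReal_add ha' hb', h2]; simp
        have h4 : (2 / 3 : ℝ) ≤ b.toReal := by
          have := (ENNReal.toReal_le_toReal (by
            exact ENNReal.div_ne_top (by norm_num) (by norm_num)) hb').2 h1
          simpa using this
        have h5 : a.toReal ≤ 1 / 3 := by linarith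
        rw [← ENNReal.ofReal_toReal ha']
        calc ENNReal.ofReal a.toReal ≤ ENNReal.ofReal (1 / 3) := ENNReal.ofReal_le_ofReal h5
          _ = 1 / 3 := by
            rw [ENNReal.ofReal_div_of_pos (by norm_num)]
            simp
      · simp only [hf, not_false_eq_true, if_true]
        exact le_trans (outer_le_one _ _) le_add_self
    refine hle.trans (le_of_eq ?_)
    rw [Finset.sum_add_distrib, Finset.sum_const, ← Finset.sum_filter, Finset.sum_const,
      Nat.card_eq_fintype_card, Fintype.card_subtype]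
    simp [hn₂]
  have hmain : (10 * n₂ : ℝ≥0∞) * X ≤ (10 * n₁ : ℝ≥0∞) * Z + (n₁ * n₂ : ℝ≥0∞) := by
    rw [hX, hZ, sum_accept, sum_accept, ← ENNReal.tsum_mul_left, ← ENNReal.tsum_mul_left]
    calc ∑' T, (10 * n₂ : ℝ≥0∞) * (A T * (Nat.card {ω // T.Accepts (G₁ ω)} : ℝ≥0∞))
        ≤ ∑' T, ((10 * n₁ : ℝ≥0∞) * (A T * (Nat.card {ω // T.Accepts (G₂ ω)} : ℝ≥0∞)) +
            A T * (n₁ * n₂ : ℝ≥0∞)) := by
          refine ENNReal.tsum_le_tsum fun T => ?_
          by_cases hT : T ∈ A.support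
          · have h3 : (10 * n₂ : ℝ≥0∞) * (Nat.card {ω // T.Accepts (G₁ ω)} : ℝ≥0∞) ≤
              (10 * n₁ : ℝ≥0∞) * (Nat.card {ω // T.Accepts (G₂ ω)} : ℝ≥0∞) +
                (n₁ * n₂ : ℝ≥0∞) := by exact_mod_cast h T hT
            calc (10 * n₂ : ℝ≥0∞) * (A T * (Nat.card {ω // T.Accepts (G₁ ω)} : ℝ≥0∞))
                = A T * ((10 * n₂ : ℝ≥0∞) * (Nat.card {ω // T.Accepts (G₁ ω)} : ℝ≥0∞)) := by ring
              _ ≤ A T * ((10 * n₁ : ℝ≥0∞) * (Nat.card {ω // T.Accepts (G₂ ω)} : ℝ≥0∞) +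
                (n₁ * n₂ : ℝ≥0∞)) := by gcongr
              _ = _ := by ring
          · have h0 : A T = 0 := by
              rwa [PMF.mem_support_iff, not_not] at hT
            simp [h0]
      _ = _ := by
          rw [ENNReal.tsum_add, ENNReal.tsum_mul_right, A.tsum_coe, one_mul]
  -- pass to real numbers
  have hXr : X ≠ ⊤ := ne_top_of_le_ne_top (ENNReal.natCast_ne_top _) hXtop
  have hZr : Z ≠ ⊤ := ne_top_of_le_ne_top (ENNReal.natCast_ne_top _) hZtop
  have r1 : (n₁ : ℝ) * (2 / 3) ≤ X.toReal := by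
    have := ENNReal.toReal_mono hXr hXlow
    simpa using this
  have r2 : Z.toReal ≤ (n₂ : ℝ) * (1 / 3) + (Nat.card {ω // ¬ IsFar P ε (G₂ ω)} : ℝ) := by
    have htop : (n₂ : ℝ≥0∞) * (1 / 3) + (Nat.card {ω // ¬ IsFar P ε (G₂ ω)} : ℝ≥0∞) ≠ ⊤ := by
      refine ENNReal.add_ne_top.2 ⟨ENNReal.mul_ne_top (ENNReal.natCast_ne_top _) ?_,
        ENNReal.natCast_ne_top _⟩
      exact ENNReal.div_ne_top (by norm_num) (by norm_num)
    have := ENNReal.toReal_mono htop hZup
    rw [ENNReal.toReal_add (ENNReal.mul_ne_top (ENNReal.natCast_ne_top _)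
      (ENNReal.div_ne_top (by norm_num) (by norm_num))) (ENNReal.natCast_ne_top _)] at this
    generalize Nat.card {ω // ¬ IsFar P ε (G₂ ω)} = bad at this ⊢
    simpa using this
  have r3 : (10 * n₂ : ℝ) * X.toReal ≤ (10 * n₁ : ℝ) * Z.toReal + (n₁ * n₂ : ℝ) := by
    have htop : (10 * n₁ : ℝ≥0∞) * Z + (n₁ * n₂ : ℝ≥0∞) ≠ ⊤ := by
      refine ENNReal.add_ne_top.2 ⟨ENNReal.mul_ne_top ?_ hZr, ?_⟩
      · exact ENNReal.mul_ne_top (by norm_num) (ENNReal.natCast_ne_top _)
      · exact ENNReal.mul_ne_top (ENNReal.natCast_ne_top _) (ENNReal.natCast_ne_top _)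
    have := ENNReal.toReal_mono htop hmain
    rw [ENNReal.toReal_add (ENNReal.mul_ne_top (ENNReal.mul_ne_top (by norm_num)
      (ENNReal.natCast_ne_top _)) hZr) (ENNReal.mul_ne_top (ENNReal.natCast_ne_top _)
      (ENNReal.natCast_ne_top _))] at this
    simpa using this
  have r4 : (100 : ℝ) * (Nat.card {ω // ¬ IsFar P ε (G₂ ω)} : ℝ) ≤ n₂ := by exact_mod_cast h₂
  have p1 : (0 : ℝ) < n₁ := by exact_mod_cast hn₁pos
  have p2 : (0 : ℝ) < n₂ := by exact_mod_cast hn₂pos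
  have p3 : (0 : ℝ) < n₁ * n₂ := mul_pos p1 p2
  nlinarith [mul_le_mul_of_nonneg_left r1 p2.le, mul_le_mul_of_nonneg_left r2 p1.le,
    mul_le_mul_of_nonneg_left r4 p1.le]

end Pool.Agent.Lib_MP_cc9a35_lc
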