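import Pool.Agent.Lib_MP_cc9a35_lc.Defs

/-!
Construction of decision trees, and indistinguishability of `d`-wise independent families.
-/

namespace Pool.Agent.Lib_MP_cc9a35_lc

open QueryTree

variable {N : ℕ}

/-- Two graphs agree on all the pairs of a list. -/
def AgreeOn (L : List (Fin N × Fin N)) (G H : SimpleGraph (Fin N)) : Prop :=
  ∀ e ∈ L, (G.Adj e.1 e.2 ↔ H.Adj e.1 e.2)

theorem agreeOn_cons {e : Fin N × Fin N} {L : List (Fin N × Fin N)} {G H : SimpleGraph (Fin N)} :
    AgreeOn (e :: L) G H ↔ (G.Adj e.1 e.2 ↔ H.Adj e.1 e.2) ∧ AgreeOn L G H := by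
  simp [AgreeOn]

theorem agreeOn_nil {G H : SimpleGraph (Fin N)} : AgreeOn ([] : List (Fin N × Fin N)) G H := by
  simp [AgreeOn]

theorem exists_nonadaptive_aux (L : List (Fin N × Fin N)) :
    ∀ (C : Set (SimpleGraph (Fin N))) (A : SimpleGraph (Fin N) → Prop),
      (∀ G ∈ C, ∀ H ∈ C, AgreeOn L G H → (A G ↔ A H)) →
      ∃ T : QueryTree N, QueriesExactly L T ∧ T.depth = L.length ∧
        ∀ G ∈ C, (T.Accepts G ↔ A G) := by
  classical
  induction L with
  | nil =>
    intro C A h
    refine ⟨.answer (decide (∃ G ∈ C, A G)), trivial, rfl, ?_⟩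
    intro G hG
    simp only [Accepts, decide_eq_true_eq]
    constructor
    · rintro ⟨H, hH, hA⟩
      exact (h H hH G hG agreeOn_nil).1 hA
    · intro hA
      exact ⟨G, hG, hA⟩
  | cons e L ih =>
    intro C A h
    obtain ⟨T1, hT1, hd1, hA1⟩ := ih (C ∩ {G | G.Adj e.1 e.2}) A (by
      intro G hG H hH hGH
      refine h G hG.1 H hH.1 ?_
      rw [agreeOn_cons]
      exact ⟨⟨fun _ => hH.2, fun _ => hG.2⟩, hGH⟩)
    obtain ⟨T2, hT2, hd2, hA2⟩ := ih (C ∩ {G | ¬ G.Adj e.1 e.2}) A (by
      intro G hG H hH hGH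
      refine h G hG.1 H hH.1 ?_
      rw [agreeOn_cons]
      exact ⟨⟨fun h' => absurd h' hG.2, fun h' => absurd h' hH.2⟩, hGH⟩)
    refine ⟨.query e.1 e.2 T1 T2, ⟨rfl, hT1, hT2⟩, by simp [depth, hd1, hd2], ?_⟩
    intro G hG
    simp only [Accepts]
    by_cases hadj : G.Adj e.1 e.2
    · simp only [hadj, true_and, not_true_eq_false, false_and, or_false]
      exact hA1 G ⟨hG, hadj⟩
    · simp only [hadj, false_and, not_false_eq_true, true_and, false_or]
      exact hA2 G ⟨hG, hadj⟩

/-- A predicate that only depends on the pairs of the list `L` is decided by a non-adaptive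
algorithm asking the queries of `L`. -/
theorem exists_nonadaptive (L : List (Fin N × Fin N)) (A : SimpleGraph (Fin N) → Prop)
    (h : ∀ G H, AgreeOn L G H → (A G ↔ A H)) :
    ∃ T : QueryTree N, T.IsNonadaptive ∧ T.depth = L.length ∧ ∀ G, (T.Accepts G ↔ A G) := by
  obtain ⟨T, hT, hd, hA⟩ := exists_nonadaptive_aux L Set.univ A (fun G _ H _ => h G H)
  exact ⟨T, ⟨L, hT⟩, hd, fun G => hA G trivial⟩

theorem exists_adaptive_aux (L1 : List (Fin N × Fin N)) :
    ∀ (C : Set (SimpleGraph (Fin N))) (A : SimpleGraph (Fin N) → Prop)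
      (L2 : SimpleGraph (Fin N) → List (Fin N × Fin N)) (K : ℕ),
      (∀ G ∈ C, (L2 G).length ≤ K) →
      (∀ G ∈ C, ∀ H ∈ C, AgreeOn L1 G H → L2 G = L2 H) →
      (∀ G ∈ C, ∀ H ∈ C, AgreeOn L1 G H → AgreeOn (L2 G) G H → (A G ↔ A H)) →
      ∃ T : QueryTree N, T.depth ≤ L1.length + K ∧ ∀ G ∈ C, (T.Accepts G ↔ A G) := by
  classical
  induction L1 with
  | nil =>
    intro C A L2 K hK h2 hA
    rcases C.eq_empty_or_nonempty with hC | ⟨G0, hG0⟩
    · refine ⟨.answer true, by simp [depth], ?_⟩
      intro G hG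
      simp [hC] at hG
    · obtain ⟨T, hT, hd, hTA⟩ := exists_nonadaptive_aux (L2 G0) C A (by
        intro G hG H hH hGH
        refine hA G hG H hH agreeOn_nil ?_
        rw [h2 G hG G0 hG0 agreeOn_nil]
        exact hGH)
      refine ⟨T, ?_, hTA⟩
      have := hK G0 hG0
      simp only [List.length_nil, zero_add]
      omega
  | cons e L ih =>
    intro C A L2 K hK h2 hA
    obtain ⟨T1, hd1, hA1⟩ := ih (C ∩ {G | G.Adj e.1 e.2}) A L2 K (fun G hG => hK G hG.1)
      (by
        intro G hG H hH hGH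
        refine h2 G hG.1 H hH.1 ?_
        rw [agreeOn_cons]
        exact ⟨⟨fun _ => hH.2, fun _ => hG.2⟩, hGH⟩)
      (by
        intro G hG H hH hGH
        refine hA G hG.1 H hH.1 ?_
        rw [agreeOn_cons]
        exact ⟨⟨fun _ => hH.2, fun _ => hG.2⟩, hGH⟩)
    obtain ⟨T2, hd2, hA2⟩ := ih (C ∩ {G | ¬ G.Adj e.1 e.2}) A L2 K (fun G hG => hK G hG.1)
      (by
        intro G hG H hH hGH
        refine h2 G hG.1 H hH.1 ?_
        rw [agreeOn_cons]
        exact ⟨⟨fun h' => absurd h' hG.2, fun h' => absurd h' hH.2⟩, hGH⟩)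
      (by
        intro G hG H hH hGH
        refine hA G hG.1 H hH.1 ?_
        rw [agreeOn_cons]
        exact ⟨⟨fun h' => absurd h' hG.2, fun h' => absurd h' hH.2⟩, hGH⟩)
    refine ⟨.query e.1 e.2 T1 T2, ?_, ?_⟩
    · simp only [depth, List.length_cons]
      omega
    intro G hG
    simp only [Accepts]
    by_cases hadj : G.Adj e.1 e.2
    · simp only [hadj, true_and, not_true_eq_false, false_and, or_false]
      exact hA1 G ⟨hG, hadj⟩
    · simp only [hadj, false_and, not_false_eq_true, true_and, false_or]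
      exact hA2 G ⟨hG, hadj⟩

/-- A predicate that only depends on the pairs of a list `L1` and of a second list `L2`, which itself
is determined by the answers on `L1`, is decided by an adaptive algorithm. -/
theorem exists_adaptive (L1 : List (Fin N × Fin N)) (A : SimpleGraph (Fin N) → Prop)
    (L2 : SimpleGraph (Fin N) → List (Fin N × Fin N)) (K : ℕ)
    (hK : ∀ G, (L2 G).length ≤ K)
    (h2 : ∀ G H, AgreeOn L1 G H → L2 G = L2 H)
    (hA : ∀ G H, AgreeOn L1 G H → AgreeOn (L2 G) G H → (A G ↔ A H)) :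
    ∃ T : QueryTree N, T.depth ≤ L1.length + K ∧ ∀ G, (T.Accepts G ↔ A G) := by
  obtain ⟨T, hd, hTA⟩ := exists_adaptive_aux L1 Set.univ A L2 K (fun G _ => hK G)
    (fun G _ H _ => h2 G H) (fun G _ H _ => hA G H)
  exact ⟨T, hd, fun G => hTA G trivial⟩

/-! ### Indistinguishability -/

section Indist

variable {ι : Type*} [DecidableEq ι]

/-- The number of queries to hidden coordinates, in the worst case. -/
def hiddenDepth (coord : Fin N → Fin N → Option ι) : QueryTree N → ℕ
  | .answer _ => 0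
  | .query u v t f =>
    max (hiddenDepth coord t) (hiddenDepth coord f) + (if (coord u v).isSome then 1 else 0)

omit [DecidableEq ι] in
theorem hiddenDepth_le_depth (coord : Fin N → Fin N → Option ι) (T : QueryTree N) :
    hiddenDepth coord T ≤ T.depth := by
  induction T with
  | answer b => simp [hiddenDepth]
  | query u v t f iht ihf =>
    simp only [hiddenDepth, depth]
    split_ifs <;> omega

/-- number of hidden queries in a list -/
def hiddenCount (coord : Fin N → Fin N → Option ι) (L : List (Fin N × Fin N)) : ℕ :=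
  L.countP (fun e => (coord e.1 e.2).isSome)

omit [DecidableEq ι] in
theorem hiddenDepth_of_queriesExactly (coord : Fin N → Fin N → Option ι) (T : QueryTree N) :
    ∀ L : List (Fin N × Fin N), QueriesExactly L T →
      hiddenDepth coord T = hiddenCount coord L ∧ T.depth = L.length := by
  induction T with
  | answer b =>
    intro L hL
    cases L with
    | nil => simp [hiddenDepth, hiddenCount, depth]
    | cons e L => simp [QueriesExactly] at hL
  | query u v t f iht ihf =>
    intro L hL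
    cases L with
    | nil => simp [QueriesExactly] at hL
    | cons e L =>
      simp only [QueriesExactly] at hL
      obtain ⟨rfl, h1, h2⟩ := hL
      obtain ⟨h3, h4⟩ := iht L h1
      obtain ⟨h5, h6⟩ := ihf L h2
      simp only [hiddenDepth, hiddenCount, List.countP_cons, depth, List.length_cons, h3, h5, h4,
        h6, max_self, and_true]

theorem split_card {Ω : Type*} [Fintype Ω] {u v : Fin N} {t₁ t₂ : QueryTree N} {I : Finset ι}
    {t : ι → Bool} {i : ι} (hi : i ∉ I) (b : Ω → ι → Bool) (G : Ω → SimpleGraph (Fin N))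
    (hG : ∀ ω, ((G ω).Adj u v ↔ b ω i = true)) :
    Nat.card {ω : Ω // (∀ j ∈ I, b ω j = t j) ∧ Accepts (G ω) (.query u v t₁ t₂)} =
    Nat.card {ω : Ω // (∀ j ∈ insert i I, b ω j = Function.update t i true j) ∧
      Accepts (G ω) t₁} +
    Nat.card {ω : Ω // (∀ j ∈ insert i I, b ω j = Function.update t i false j) ∧
      Accepts (G ω) t₂} := by
  classical
  have key : ∀ (c : Bool) (ω : Ω),
      (∀ j ∈ insert i I, b ω j = Function.update t i c j) ↔
        (b ω i = c ∧ ∀ j ∈ I, b ω j = t j) := by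
    intro c ω
    rw [Finset.forall_mem_insert]
    refine and_congr (by simp) ?_
    refine forall₂_congr fun j hj => ?_
    have : j ≠ i := fun h => hi (h ▸ hj)
    simp [Function.update_of_ne this]
  simp only [key]
  simp only [Nat.card_eq_fintype_card, Fintype.card_subtype]
  rw [← Finset.card_union_of_disjoint]
  · congr 1
    ext ω
    simp only [Finset.mem_filter, Finset.mem_univ, true_and, Finset.mem_union, Accepts, hG]
    cases b ω i <;> simp
  · rw [Finset.disjoint_left]
    intro ω h h'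
    simp only [Finset.mem_filter, Finset.mem_univ, true_and] at h h'
    rw [h.1.1] at h'
    simp at h'

/-- A decision tree which makes few hidden queries cannot distinguish two families of graphs whose
hidden bits agree on all small sets of coordinates. -/
theorem indist_aux {Ω₁ Ω₂ : Type*} [Fintype Ω₁] [Fintype Ω₂] (coord : Fin N → Fin N → Option ι)
    (fixed : Fin N → Fin N → Prop) (b₁ : Ω₁ → ι → Bool) (b₂ : Ω₂ → ι → Bool)
    (G₁ : Ω₁ → SimpleGraph (Fin N)) (G₂ : Ω₂ → SimpleGraph (Fin N))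
    (h₁ : ∀ ω u v, (∀ i, coord u v = some i → ((G₁ ω).Adj u v ↔ b₁ ω i = true)) ∧
      (coord u v = none → ((G₁ ω).Adj u v ↔ fixed u v)))
    (h₂ : ∀ ω u v, (∀ i, coord u v = some i → ((G₂ ω).Adj u v ↔ b₂ ω i = true)) ∧
      (coord u v = none → ((G₂ ω).Adj u v ↔ fixed u v)))
    (d : ℕ)
    (hd : ∀ I : Finset ι, I.card ≤ d → ∀ t : ι → Bool,
      Fintype.card Ω₂ * Nat.card {ω : Ω₁ // ∀ i ∈ I, b₁ ω i = t i} =
      Fintype.card Ω₁ * Nat.card {ω : Ω₂ // ∀ i ∈ I, b₂ ω i = t i})
    (T : QueryTree N) :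
    ∀ (I : Finset ι) (t : ι → Bool), I.card + hiddenDepth coord T ≤ d →
      Fintype.card Ω₂ * Nat.card {ω : Ω₁ // (∀ i ∈ I, b₁ ω i = t i) ∧ T.Accepts (G₁ ω)} =
      Fintype.card Ω₁ * Nat.card {ω : Ω₂ // (∀ i ∈ I, b₂ ω i = t i) ∧ T.Accepts (G₂ ω)} := by
  classical
  induction T with
  | answer b =>
    intro I t hI
    cases b with
    | true =>
      simp only [Accepts, and_true]
      exact hd I (by simpa [hiddenDepth] using hI) t
    | false =>
      simp [Accepts]
  | query u v t₁ t₂ ih₁ ih₂ =>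
    intro I t hI
    cases hc : coord u v with
    | none =>
      simp only [hiddenDepth, hc, Option.isSome_none, Bool.false_eq_true, if_false, add_zero] at hI
      by_cases hf : fixed u v
      · have e1 : ∀ ω, ((G₁ ω).Adj u v) := fun ω => ((h₁ ω u v).2 hc).2 hf
        have e2 : ∀ ω, ((G₂ ω).Adj u v) := fun ω => ((h₂ ω u v).2 hc).2 hf
        simp only [Accepts, e1, e2, true_and, not_true_eq_false, false_and, or_false]
        exact ih₁ I t (by omega)
      · have e1 : ∀ ω, ¬ ((G₁ ω).Adj u v) := fun ω h => hf (((h₁ ω u v).2 hc).1 h)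
        have e2 : ∀ ω, ¬ ((G₂ ω).Adj u v) := fun ω h => hf (((h₂ ω u v).2 hc).1 h)
        simp only [Accepts, e1, e2, true_and, not_false_eq_true, false_and, false_or]
        exact ih₂ I t (by omega)
    | some i =>
      simp only [hiddenDepth, hc, Option.isSome_some, if_true] at hI
      have e1 : ∀ ω, ((G₁ ω).Adj u v ↔ b₁ ω i = true) := fun ω => (h₁ ω u v).1 i hc
      have e2 : ∀ ω, ((G₂ ω).Adj u v ↔ b₂ ω i = true) := fun ω => (h₂ ω u v).1 i hc
      by_cases hi : i ∈ I
      · cases hti : t i with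
        | true =>
          have k1 : ∀ ω, ((∀ j ∈ I, b₁ ω j = t j) ∧ Accepts (G₁ ω) (.query u v t₁ t₂)) ↔
              ((∀ j ∈ I, b₁ ω j = t j) ∧ Accepts (G₁ ω) t₁) := by
            intro ω
            refine and_congr_right fun h => ?_
            have : b₁ ω i = true := by rw [h i hi, hti]
            simp [Accepts, e1, this]
          have k2 : ∀ ω, ((∀ j ∈ I, b₂ ω j = t j) ∧ Accepts (G₂ ω) (.query u v t₁ t₂)) ↔
              ((∀ j ∈ I, b₂ ω j = t j) ∧ Accepts (G₂ ω) t₁) := by
            intro ω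
            refine and_congr_right fun h => ?_
            have : b₂ ω i = true := by rw [h i hi, hti]
            simp [Accepts, e2, this]
          simp only [k1, k2]
          exact ih₁ I t (by omega)
        | false =>
          have k1 : ∀ ω, ((∀ j ∈ I, b₁ ω j = t j) ∧ Accepts (G₁ ω) (.query u v t₁ t₂)) ↔
              ((∀ j ∈ I, b₁ ω j = t j) ∧ Accepts (G₁ ω) t₂) := by
            intro ω
            refine and_congr_right fun h => ?_
            have : b₁ ω i = false := by rw [h i hi, hti]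
            simp [Accepts, e1, this]
          have k2 : ∀ ω, ((∀ j ∈ I, b₂ ω j = t j) ∧ Accepts (G₂ ω) (.query u v t₁ t₂)) ↔
              ((∀ j ∈ I, b₂ ω j = t j) ∧ Accepts (G₂ ω) t₂) := by
            intro ω
            refine and_congr_right fun h => ?_
            have : b₂ ω i = false := by rw [h i hi, hti]
            simp [Accepts, e2, this]
          simp only [k1, k2]
          exact ih₂ I t (by omega)
      · -- split according to the value of the bit `i`
        rw [split_card hi b₁ G₁ e1, split_card hi b₂ G₂ e2, mul_add, mul_add,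
          ih₁ (insert i I) _ (by rw [Finset.card_insert_of_notMem hi]; omega),
          ih₂ (insert i I) _ (by rw [Finset.card_insert_of_notMem hi]; omega)]

theorem indist {Ω₁ Ω₂ : Type*} [Fintype Ω₁] [Fintype Ω₂] (coord : Fin N → Fin N → Option ι)
    (fixed : Fin N → Fin N → Prop) (b₁ : Ω₁ → ι → Bool) (b₂ : Ω₂ → ι → Bool)
    (G₁ : Ω₁ → SimpleGraph (Fin N)) (G₂ : Ω₂ → SimpleGraph (Fin N))
    (h₁ : ∀ ω u v, (∀ i, coord u v = some i → ((G₁ ω).Adj u v ↔ b₁ ω i = true)) ∧
      (coord u v = none → ((G₁ ω).Adj u v ↔ fixed u v)))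
    (h₂ : ∀ ω u v, (∀ i, coord u v = some i → ((G₂ ω).Adj u v ↔ b₂ ω i = true)) ∧
      (coord u v = none → ((G₂ ω).Adj u v ↔ fixed u v)))
    (d : ℕ)
    (hd : ∀ I : Finset ι, I.card ≤ d → ∀ t : ι → Bool,
      Fintype.card Ω₂ * Nat.card {ω : Ω₁ // ∀ i ∈ I, b₁ ω i = t i} =
      Fintype.card Ω₁ * Nat.card {ω : Ω₂ // ∀ i ∈ I, b₂ ω i = t i})
    (T : QueryTree N) (hT : hiddenDepth coord T ≤ d) :
      Fintype.card Ω₂ * Nat.card {ω : Ω₁ // T.Accepts (G₁ ω)} =
      Fintype.card Ω₁ * Nat.card {ω : Ω₂ // T.Accepts (G₂ ω)} := by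
  have := indist_aux coord fixed b₁ b₂ G₁ G₂ h₁ h₂ d hd T ∅ (fun _ => true) (by simpa using hT)
  simpa using this

end Indist

end Pool.Agent.Lib_MP_cc9a35_lc
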