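import Pool.Agent.Lib_MP_cc9a35_lc.Property

/-!
Testers for the property `prop r Y`.
-/

namespace Pool.Agent.Lib_MP_cc9a35_lc

open QueryTree
open scoped ENNReal

variable {N : ℕ}

/-! ### Counting lemmas -/

theorem card_prod_subtype {α β : Type*} [Fintype α] [Fintype β] (Q : α → β → Prop) :
    Nat.card {s : α × β // Q s.1 s.2} = ∑ a, Nat.card {b // Q a b} := by
  classical
  have e : {s : α × β // Q s.1 s.2} ≃ (Σ a, {b // Q a b}) :=
    { toFun := fun s => ⟨s.1.1, s.1.2, s.2⟩
      invFun := fun s => ⟨(s.1, s.2.1), s.2.2⟩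
      left_inv := fun s => rfl
      right_inv := fun s => rfl }
  rw [Nat.card_congr e, Nat.card_sigma]

theorem card_add_card_not {α : Type*} [Fintype α] (Q : α → Prop) :
    Nat.card {a // Q a} + Nat.card {a // ¬ Q a} = Fintype.card α := by
  classical
  rw [Nat.card_eq_fintype_card, Nat.card_eq_fintype_card, Fintype.card_subtype,
    Fintype.card_subtype, Finset.card_filter_add_card_filter_not]
  rfl

theorem card_pi_forall {X : Type*} [Fintype X] (M : ℕ) (Q : X → Prop) :
    Nat.card {f : Fin M → X // ∀ i, Q (f i)} = (Nat.card {x // Q x}) ^ M := by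
  classical
  rw [Nat.card_congr (Equiv.subtypePiEquivPi (p := fun _ x => Q x))]
  simp [Nat.card_eq_fintype_card]

theorem card_pi_exists_le {X : Type*} [Fintype X] (M : ℕ) (Q : X → Prop) :
    Fintype.card X * Nat.card {f : Fin M → X // ∃ i, Q (f i)} ≤
      M * (Nat.card {x // Q x} * Fintype.card X ^ M) := by
  classical
  have h1 : Nat.card {f : Fin M → X // ∃ i, Q (f i)} ≤
      ∑ i : Fin M, Nat.card {f : Fin M → X // Q (f i)} := by
    simp only [Nat.card_eq_fintype_card, Fintype.card_subtype]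
    have : (Finset.univ.filter fun f : Fin M → X => ∃ i, Q (f i)) ⊆
        Finset.univ.biUnion fun i : Fin M => Finset.univ.filter fun f : Fin M → X => Q (f i) := by
      intro f hf
      simpa using hf
    exact (Finset.card_le_card this).trans Finset.card_biUnion_le
  have h2 : ∀ i : Fin M, Fintype.card X * Nat.card {f : Fin M → X // Q (f i)} =
      Nat.card {x // Q x} * Fintype.card X ^ M := by
    intro i
    have hM : 0 < M := i.pos
    have e : (Finset.univ.filter fun f : Fin M → X => Q (f i)) =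
        Fintype.piFinset fun j => if j = i then Finset.univ.filter Q else Finset.univ := by
      ext f
      simp only [Finset.mem_filter, Finset.mem_univ, true_and, Fintype.mem_piFinset]
      constructor
      · intro h j
        by_cases hj : j = i
        · subst hj; simpa using h
        · simp [hj]
      · intro h
        simpa using h i
    rw [Nat.card_eq_fintype_card, Fintype.card_subtype, e, Fintype.card_piFinset,
      ← Finset.mul_prod_erase Finset.univ _ (Finset.mem_univ i)]
    simp only [if_true]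
    rw [Finset.prod_congr rfl (g := fun _ => Fintype.card X)]
    · rw [Finset.prod_const, Finset.card_erase_of_mem (Finset.mem_univ i), Finset.card_univ,
        Fintype.card_fin, Nat.card_eq_fintype_card, Fintype.card_subtype]
      obtain ⟨m, rfl⟩ : ∃ m, M = m + 1 := ⟨M - 1, by omega⟩
      simp only [Nat.add_sub_cancel, pow_succ]
      ring
    · intro j hj
      simp [Finset.ne_of_mem_erase hj, Finset.card_univ]
  calc Fintype.card X * Nat.card {f : Fin M → X // ∃ i, Q (f i)}
      ≤ Fintype.card X * ∑ i : Fin M, Nat.card {f : Fin M → X // Q (f i)} := by gcongr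
    _ = ∑ i : Fin M, Fintype.card X * Nat.card {f : Fin M → X // Q (f i)} := by
        rw [Finset.mul_sum]
    _ = M * (Nat.card {x // Q x} * Fintype.card X ^ M) := by
        simp only [h2]
        simp

/-- Independent random pairs detect a large distance. -/
theorem sample_detects (hN : 0 < N) {ε : ℝ} {M : ℕ} (hM : 1 ≤ ε * M)
    (G H : SimpleGraph (Fin N)) (h : ε * (N : ℝ) ^ 2 < pairDist G H) :
    3 * Nat.card {f : Fin M → Fin N × Fin N //
      ∀ i, (G.Adj (f i).1 (f i).2 ↔ H.Adj (f i).1 (f i).2)} ≤ (N * N) ^ M := by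
  classical
  rw [card_pi_forall M (fun e : Fin N × Fin N => (G.Adj e.1 e.2 ↔ H.Adj e.1 e.2))]
  have h1 := card_add_card_not (fun e : Fin N × Fin N => (G.Adj e.1 e.2 ↔ H.Adj e.1 e.2))
  rw [card_differ] at h1
  set a := Nat.card {e : Fin N × Fin N // (G.Adj e.1 e.2 ↔ H.Adj e.1 e.2)} with ha
  have h2 : (a : ℝ) + 2 * (pairDist G H : ℝ) = (N : ℝ) ^ 2 := by
    have : a + 2 * pairDist G H = N * N := by simpa using h1
    have h' : ((a + 2 * pairDist G H : ℕ) : ℝ) = ((N * N : ℕ) : ℝ) := by rw [this]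
    push_cast at h'
    rw [sq]; exact h'
  have hNpos : (0 : ℝ) < (N : ℝ) ^ 2 := by positivity
  have h3 : (a : ℝ) ≤ (1 - 2 * ε) * (N : ℝ) ^ 2 := by nlinarith
  have h4 : (a : ℝ) ≤ Real.exp (-(2 * ε)) * (N : ℝ) ^ 2 := by
    refine h3.trans ?_
    refine mul_le_mul_of_nonneg_right ?_ hNpos.le
    have := Real.add_one_le_exp (-(2 * ε))
    linarith
  have h5 : (a : ℝ) ^ M ≤ (Real.exp (-(2 * ε)) * (N : ℝ) ^ 2) ^ M :=
    pow_le_pow_left₀ (Nat.cast_nonneg a) h4 M
  have h6 : Real.exp (-(2 * ε)) ^ M ≤ 1 / 3 := by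
    rw [← Real.exp_nat_mul]
    have h7 : (M : ℝ) * -(2 * ε) ≤ -2 := by nlinarith
    have h8 : Real.exp ((M : ℝ) * -(2 * ε)) ≤ Real.exp (-2) := Real.exp_le_exp.2 h7
    have h9 : (3 : ℝ) ≤ Real.exp 2 := by
      have := Real.add_one_le_exp (2 : ℝ)
      linarith
    have h10 : Real.exp (-2) ≤ 1 / 3 := by
      rw [Real.exp_neg, one_div]
      exact inv_anti₀ (by norm_num) h9
    exact h8.trans h10
  have h7 : 3 * (a : ℝ) ^ M ≤ ((N : ℝ) * N) ^ M := by
    rw [mul_pow] at h5
    have h8 : (0 : ℝ) ≤ ((N : ℝ) ^ 2) ^ M := by positivity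
    have h9 : (a : ℝ) ^ M ≤ 1 / 3 * ((N : ℝ) ^ 2) ^ M :=
      h5.trans (mul_le_mul_of_nonneg_right h6 h8)
    rw [← sq]
    linarith
  exact_mod_cast h7

/-! ### Testers from seeds consisting of a vertex and `M` pairs -/

/-- The seeds: a vertex and `M` ordered pairs. -/
abbrev Seed (N M : ℕ) : Type := Fin N × (Fin M → Fin N × Fin N)

theorem card_seed (N M : ℕ) : Fintype.card (Seed N M) = N * (N * N) ^ M := by
  simp [Seed]

theorem reject_count {M : ℕ} (acc : Fin N → (Fin M → Fin N × Fin N) → Prop)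
    (h : ∀ w, 3 * Nat.card {f // acc w f} ≤ (N * N) ^ M) :
    2 * Fintype.card (Seed N M) ≤ 3 * Nat.card {s : Seed N M // ¬ acc s.1 s.2} := by
  have h1 := card_add_card_not (fun s : Seed N M => acc s.1 s.2)
  have h2 := card_prod_subtype (α := Fin N) (β := Fin M → Fin N × Fin N) acc
  have h3 : 3 * Nat.card {s : Seed N M // acc s.1 s.2} ≤ N * (N * N) ^ M := by
    rw [h2, Finset.mul_sum]
    calc ∑ w : Fin N, 3 * Nat.card {f // acc w f} ≤ ∑ _w : Fin N, (N * N) ^ M :=
          Finset.sum_le_sum fun w _ => h w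
      _ = N * (N * N) ^ M := by simp
  rw [card_seed] at h1 ⊢
  omega

theorem card_lt_subtype {r : ℕ} (hr : r ≤ N) (σ : Equiv.Perm (Fin N)) :
    Nat.card {v : Fin N // (σ v : ℕ) < r} = r := by
  have e1 : {v : Fin N // (σ v : ℕ) < r} ≃ {u : Fin N // (u : ℕ) < r} :=
    Equiv.subtypeEquiv σ (fun _ => Iff.rfl)
  have e2 : {u : Fin N // (u : ℕ) < r} ≃ Fin r :=
    { toFun := fun u => ⟨u.1, u.2⟩
      invFun := fun i => ⟨⟨i, lt_of_lt_of_le i.2 hr⟩, i.2⟩
      left_inv := fun u => rfl
      right_inv := fun i => rfl }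
  rw [Nat.card_congr e1, Nat.card_congr e2]
  simp

theorem comap_adj_of_not_lt {r : ℕ} {y : Pairs r → Bool} {σ : Equiv.Perm (Fin N)} {u v : Fin N}
    (h : ¬ ((σ u : ℕ) < r ∧ (σ v : ℕ) < r)) :
    ((base r y).comap σ).Adj u v ↔ ¬ ((σ u : ℕ) < r ↔ (σ v : ℕ) < r) := by
  rw [SimpleGraph.comap_adj]
  exact base_adj_none (coord_eq_none.2 fun h' => h ⟨h'.1, h'.2.1⟩)

theorem neighborSet_comap {r : ℕ} {y : Pairs r → Bool} {σ : Equiv.Perm (Fin N)} {w : Fin N}
    (hw : ¬ (σ w : ℕ) < r) :
    {v | ((base r y).comap σ).Adj w v} = {v | (σ v : ℕ) < r} := by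
  ext v
  simp only [Set.mem_ofPred_eq]
  rw [comap_adj_of_not_lt (fun h => hw h.1)]
  tauto

/-- The acceptance predicate of the cheap tester. -/
def cheapAcc {M : ℕ} (G : SimpleGraph (Fin N)) (w : Fin N) (f : Fin M → Fin N × Fin N) : Prop :=
  ∀ i, (G.Adj (f i).1 (f i).2 ↔ (cutGraph {v | G.Adj w v}).Adj (f i).1 (f i).2)

theorem cheap_tester (r : ℕ → ℕ) (Y : ∀ N, Set (Pairs (r N) → Bool)) (hN : 0 < N) {ε : ℝ}
    {M : ℕ} (hM : 1 ≤ ε * M) (hsmall : 10 * r N ≤ N → 5 * M * r N ^ 2 ≤ N ^ 2) :
    ∃ A : PMF (QueryTree N), (∀ T ∈ A.support, T.IsNonadaptive ∧ T.depth ≤ 3 * M) ∧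
      IsTester (prop r Y) ε A := by
  classical
  have : Nonempty (Fin N) := ⟨⟨0, hN⟩⟩
  have hT : ∀ s : Seed N M, ∃ T : QueryTree N, T.IsNonadaptive ∧ T.depth = 3 * M ∧
      ∀ G, (T.Accepts G ↔ cheapAcc G s.1 s.2) := by
    rintro ⟨w, f⟩
    obtain ⟨T, h1, h2, h3⟩ := exists_nonadaptive
      (List.ofFn (fun i => (w, (f i).1)) ++ List.ofFn (fun i => (w, (f i).2)) ++ List.ofFn f)
      (fun G => cheapAcc G w f) (by
        intro G H hGH
        have e1 : ∀ i, (G.Adj w (f i).1 ↔ H.Adj w (f i).1) := fun i =>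
          hGH (w, (f i).1) (by simp [List.mem_append, List.mem_ofFn])
        have e2 : ∀ i, (G.Adj w (f i).2 ↔ H.Adj w (f i).2) := fun i =>
          hGH (w, (f i).2) (by simp [List.mem_append, List.mem_ofFn])
        have e3 : ∀ i, (G.Adj (f i).1 (f i).2 ↔ H.Adj (f i).1 (f i).2) := fun i =>
          hGH (f i) (by simp [List.mem_append, List.mem_ofFn])
        unfold cheapAcc
        refine forall_congr' fun i => ?_
        rw [e3 i]
        refine iff_congr Iff.rfl ?_
        change ¬ (G.Adj w (f i).1 ↔ G.Adj w (f i).2) ↔ ¬ (H.Adj w (f i).1 ↔ H.Adj w (f i).2)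
        rw [e1 i, e2 i])
    refine ⟨T, h1, ?_, h3⟩
    rw [h2]
    simp only [List.length_append, List.length_ofFn]
    omega
  choose T hT1 hT2 hT3 using hT
  refine ⟨(PMF.uniformOfFintype (Seed N M)).map T, ?_, isTester_of_seeds T _ _ ?_ ?_⟩
  · intro t ht
    rw [PMF.support_map] at ht
    obtain ⟨s, _, rfl⟩ := ht
    exact ⟨hT1 s, (hT2 s).le⟩
  · -- completeness
    intro G hG
    simp only [hT3]
    have h1 := card_add_card_not (fun s : Seed N M => cheapAcc G s.1 s.2)
    suffices h : 3 * Nat.card {s : Seed N M // ¬ cheapAcc G s.1 s.2} ≤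
        Fintype.card (Seed N M) by omega
    rcases hG with ⟨R, rfl⟩ | ⟨hr, y, _, σ, rfl⟩
    · have : IsEmpty {s : Seed N M // ¬ cheapAcc (cutGraph R) s.1 s.2} := by
        refine ⟨fun s => s.2 fun i => ?_⟩
        change ¬ (_ ∈ R ↔ _ ∈ R) ↔ ¬ (¬ (_ ∈ R ↔ _ ∈ R) ↔ ¬ (_ ∈ R ↔ _ ∈ R))
        tauto
      simp
    · have hs := hsmall hr
      set G := (base (r N) y).comap σ with hG
      have hle : Nat.card {s : Seed N M // ¬ cheapAcc G s.1 s.2} ≤
          Nat.card {s : Seed N M // (σ s.1 : ℕ) < r N} +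
          Nat.card {s : Seed N M // ∃ i, (σ (s.2 i).1 : ℕ) < r N ∧ (σ (s.2 i).2 : ℕ) < r N} := by
        simp only [Nat.card_eq_fintype_card, Fintype.card_subtype]
        refine le_trans (Finset.card_le_card ?_) (Finset.card_union_le _ _)
        intro s hs'
        simp only [Finset.mem_filter, Finset.mem_univ, true_and, Finset.mem_union] at hs' ⊢
        by_contra hcon
        push Not at hcon
        obtain ⟨hw, hf⟩ := hcon
        refine hs' fun i => ?_
        have hw' : ¬ (σ s.1 : ℕ) < r N := not_lt.2 hw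
        rw [hG, neighborSet_comap hw', comap_adj_of_not_lt (fun h => absurd h.2
          (not_lt.2 (hf i h.1)))]
        exact Iff.rfl
      have hc1 : Nat.card {s : Seed N M // (σ s.1 : ℕ) < r N} = r N * (N * N) ^ M := by
        rw [card_prod_subtype (α := Fin N) (β := Fin M → Fin N × Fin N)
          (fun w _ => (σ w : ℕ) < r N)]
        have : ∀ w : Fin N, Nat.card {_f : Fin M → Fin N × Fin N // (σ w : ℕ) < r N} =
            if (σ w : ℕ) < r N then (N * N) ^ M else 0 := by
          intro w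
          split_ifs with h
          · simp [h]
          · simp [h]
        simp only [this]
        rw [← Finset.sum_filter, Finset.sum_const, smul_eq_mul, ← Fintype.card_subtype,
          ← Nat.card_eq_fintype_card, card_lt_subtype (by omega) σ]
      have hc2 : Nat.card {s : Seed N M //
          ∃ i, (σ (s.2 i).1 : ℕ) < r N ∧ (σ (s.2 i).2 : ℕ) < r N} =
          N * Nat.card {f : Fin M → Fin N × Fin N //
            ∃ i, (σ (f i).1 : ℕ) < r N ∧ (σ (f i).2 : ℕ) < r N} := by
        rw [card_prod_subtype (α := Fin N) (β := Fin M → Fin N × Fin N)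
          (fun _ f => ∃ i, (σ (f i).1 : ℕ) < r N ∧ (σ (f i).2 : ℕ) < r N)]
        simp
      have hc3 := card_pi_exists_le M
        (fun e : Fin N × Fin N => (σ e.1 : ℕ) < r N ∧ (σ e.2 : ℕ) < r N)
      have hc4 : Nat.card {e : Fin N × Fin N // (σ e.1 : ℕ) < r N ∧ (σ e.2 : ℕ) < r N} =
          r N * r N := by
        have e : {e : Fin N × Fin N // (σ e.1 : ℕ) < r N ∧ (σ e.2 : ℕ) < r N} ≃
            {v : Fin N // (σ v : ℕ) < r N} × {v : Fin N // (σ v : ℕ) < r N} :=
          { toFun := fun e => (⟨e.1.1, e.2.1⟩, ⟨e.1.2, e.2.2⟩)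
            invFun := fun e => ⟨(e.1.1, e.2.1), e.1.2, e.2.2⟩
            left_inv := fun e => rfl
            right_inv := fun e => rfl }
        rw [Nat.card_congr e, Nat.card_prod, card_lt_subtype (by omega) σ]
      rw [hc4, Fintype.card_prod, Fintype.card_fin] at hc3
      rw [card_seed]
      rw [hc1, hc2] at hle
      set F := (N * N) ^ M with hF
      set Bf := Nat.card {f : Fin M → Fin N × Fin N //
        ∃ i, (σ (f i).1 : ℕ) < r N ∧ (σ (f i).2 : ℕ) < r N} with hBf
      have hN2 : 0 < N * N := Nat.mul_pos hN hN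
      have h5 : 5 * Bf ≤ F := by
        have : (N * N) * (5 * Bf) ≤ (N * N) * F := by
          calc (N * N) * (5 * Bf) = 5 * (N * N * Bf) := by ring
            _ ≤ 5 * (M * (r N * r N * F)) := by gcongr
            _ = (5 * M * r N ^ 2) * F := by ring
            _ ≤ N ^ 2 * F := by gcongr
            _ = (N * N) * F := by ring
        exact Nat.le_of_mul_le_mul_left this hN2
      have h6 : 10 * (r N * F) ≤ N * F := by
        calc 10 * (r N * F) = (10 * r N) * F := by ring
          _ ≤ N * F := by gcongr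
      have h7 : 5 * (N * Bf) ≤ N * F := by
        calc 5 * (N * Bf) = N * (5 * Bf) := by ring
          _ ≤ N * F := by gcongr
      omega
  · -- soundness
    intro G hG
    simp only [hT3]
    refine reject_count (fun w f => cheapAcc G w f) fun w => ?_
    exact sample_detects hN hM G _ (hG _ (cutGraph_mem r Y _))

/-! ### The exact tester -/

theorem exact_tester (P : GraphProperty) {ε : ℝ} (hε : 0 < ε) (N : ℕ) :
    ∃ A : PMF (QueryTree N), (∀ T ∈ A.support, T.IsNonadaptive ∧ T.depth ≤ N * N) ∧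
      IsTester P ε A := by
  classical
  obtain ⟨T, h1, h2, h3⟩ := exists_nonadaptive
    ((Finset.univ : Finset (Fin N × Fin N)).toList) (fun G => G ∈ P.graphs N) (by
      intro G H hGH
      have : G = H := by
        ext u v
        exact hGH (u, v) (by simp)
      rw [this])
  refine ⟨PMF.pure T, ?_, ?_, ?_⟩
  · intro t ht
    rw [PMF.support_pure, Set.mem_singleton_iff] at ht
    subst ht
    refine ⟨h1, ?_⟩
    rw [h2]
    simp
  · intro G hG
    rw [PMF.toOuterMeasure_pure_apply, if_pos (by simpa [h3] using hG)]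
    exact ENNReal.div_le_of_le_mul (by norm_num)
  · intro G hG
    have hG' : G ∉ P.graphs N := by
      intro h
      have := hG G h
      have h0 : pairDist G G = 0 := by simp [pairDist]
      rw [h0] at this
      have h4 : 0 ≤ ε * (N : ℝ) ^ 2 := by positivity
      simp only [Nat.cast_zero] at this
      linarith
    rw [PMF.toOuterMeasure_pure_apply, if_pos (by simpa [h3] using hG')]
    exact ENNReal.div_le_of_le_mul (by norm_num)

/-! ### The adaptive tester -/

/-- The graph that agrees with the cut given by the neighbours of `w`, except that it agrees with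
`G` inside this set if the set has exactly `r` elements. -/
def compGraph (r : ℕ) (G : SimpleGraph (Fin N)) (w : Fin N) : SimpleGraph (Fin N) where
  Adj u v := (G.Adj w u ∧ G.Adj w v ∧ Nat.card {x // G.Adj w x} = r ∧ G.Adj u v) ∨
    ¬ (G.Adj w u ↔ G.Adj w v)
  symm := ⟨fun u v h => by
    rcases h with ⟨h1, h2, h3, h4⟩ | h
    · exact Or.inl ⟨h2, h1, h3, h4.symm⟩
    · exact Or.inr fun h' => h h'.symm⟩
  loopless := ⟨fun u h => by
    rcases h with ⟨_, _, _, h4⟩ | h
    · exact G.loopless.irrefl u h4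
    · exact h Iff.rfl⟩

theorem compGraph_congr {r : ℕ} {G H : SimpleGraph (Fin N)} {w : Fin N}
    (h1 : ∀ v, (G.Adj w v ↔ H.Adj w v))
    (h2 : Nat.card {x // G.Adj w x} = r → ∀ u v, G.Adj w u → G.Adj w v →
      (G.Adj u v ↔ H.Adj u v)) : compGraph r G w = compGraph r H w := by
  have hc : Nat.card {x // G.Adj w x} = Nat.card {x // H.Adj w x} :=
    Nat.card_congr (Equiv.subtypeEquivRight h1)
  ext u v
  change ((G.Adj w u ∧ G.Adj w v ∧ Nat.card {x // G.Adj w x} = r ∧ G.Adj u v) ∨
    ¬ (G.Adj w u ↔ G.Adj w v)) ↔ ((H.Adj w u ∧ H.Adj w v ∧ Nat.card {x // H.Adj w x} = r ∧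
      H.Adj u v) ∨ ¬ (H.Adj w u ↔ H.Adj w v))
  rw [← h1 u, ← h1 v, ← hc]
  refine or_congr ?_ Iff.rfl
  refine and_congr_right fun ha => and_congr_right fun hb => and_congr_right fun hr => ?_
  exact h2 hr u v ha hb

/-- The acceptance predicate of the adaptive tester. -/
def adaptiveAcc (r : ℕ → ℕ) (Y : ∀ N, Set (Pairs (r N) → Bool)) {M : ℕ} (G : SimpleGraph (Fin N))
    (w : Fin N) (f : Fin M → Fin N × Fin N) : Prop :=
  compGraph (r N) G w ∈ (prop r Y).graphs N ∧
    ∀ i, (G.Adj (f i).1 (f i).2 ↔ (compGraph (r N) G w).Adj (f i).1 (f i).2)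

theorem adaptive_tester (r : ℕ → ℕ) (Y : ∀ N, Set (Pairs (r N) → Bool)) (hN : 0 < N) {ε : ℝ}
    {M : ℕ} (hM : 1 ≤ ε * M) (hr : 10 * r N ≤ N) :
    ∃ A : PMF (QueryTree N), (∀ T ∈ A.support, T.depth ≤ N + M + r N * r N) ∧
      IsTester (prop r Y) ε A := by
  classical
  have : Nonempty (Fin N) := ⟨⟨0, hN⟩⟩
  have hT : ∀ s : Seed N M, ∃ T : QueryTree N, T.depth ≤ N + M + r N * r N ∧
      ∀ G, (T.Accepts G ↔ adaptiveAcc r Y G s.1 s.2) := by
    rintro ⟨w, f⟩
    obtain ⟨T, h1, h2⟩ := exists_adaptive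
      (List.ofFn (fun v : Fin N => (w, v)) ++ List.ofFn f)
      (fun G => adaptiveAcc r Y G w f)
      (fun G => if Nat.card {x // G.Adj w x} = r N then
        (Finset.univ.filter fun e : Fin N × Fin N => G.Adj w e.1 ∧ G.Adj w e.2).toList else [])
      (r N * r N) (by
        intro G
        split_ifs with h
        · rw [Finset.length_toList]
          have e : (Finset.univ.filter fun e : Fin N × Fin N => G.Adj w e.1 ∧ G.Adj w e.2) =
              (Finset.univ.filter fun v => G.Adj w v) ×ˢ (Finset.univ.filter fun v => G.Adj w v) := by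
            ext ⟨a, b⟩
            simp
          rw [e, Finset.card_product, ← Fintype.card_subtype, ← Nat.card_eq_fintype_card, h]
        · simp) (by
        intro G H hGH
        have e1 : ∀ v, (G.Adj w v ↔ H.Adj w v) := fun v =>
          hGH (w, v) (by simp [List.mem_append, List.mem_ofFn])
        simp only [e1]) (by
        intro G H hGH hGH2
        have e1 : ∀ v, (G.Adj w v ↔ H.Adj w v) := fun v =>
          hGH (w, v) (by simp [List.mem_append, List.mem_ofFn])
        have e3 : ∀ i, (G.Adj (f i).1 (f i).2 ↔ H.Adj (f i).1 (f i).2) := fun i =>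
          hGH (f i) (by simp [List.mem_append, List.mem_ofFn])
        have e4 : compGraph (r N) G w = compGraph (r N) H w := by
          refine compGraph_congr e1 fun hc u v hu hv => ?_
          refine hGH2 (u, v) ?_
          rw [if_pos hc]
          simp [hu, hv]
        unfold adaptiveAcc
        rw [e4]
        refine and_congr_right fun _ => forall_congr' fun i => ?_
        rw [e3 i])
    refine ⟨T, ?_, h2⟩
    simpa only [List.length_append, List.length_ofFn] using h1
  choose T hT1 hT2 using hT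
  refine ⟨(PMF.uniformOfFintype (Seed N M)).map T, ?_, isTester_of_seeds T _ _ ?_ ?_⟩
  · intro t ht
    rw [PMF.support_map] at ht
    obtain ⟨s, _, rfl⟩ := ht
    exact hT1 s
  · -- completeness
    intro G hG
    simp only [hT2]
    have h1 := card_add_card_not (fun s : Seed N M => adaptiveAcc r Y G s.1 s.2)
    suffices h : 3 * Nat.card {s : Seed N M // ¬ adaptiveAcc r Y G s.1 s.2} ≤
        Fintype.card (Seed N M) by omega
    rcases hG with ⟨R, hR⟩ | ⟨hr', y, hy, σ, hG⟩
    · have hc : ∀ w, compGraph (r N) G w = G := by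
        intro w
        ext u v
        subst hR
        change ((¬ (w ∈ R ↔ u ∈ R) ∧ ¬ (w ∈ R ↔ v ∈ R) ∧ _ ∧ ¬ (u ∈ R ↔ v ∈ R)) ∨
          ¬ (¬ (w ∈ R ↔ u ∈ R) ↔ ¬ (w ∈ R ↔ v ∈ R))) ↔ ¬ (u ∈ R ↔ v ∈ R)
        tauto
      have : IsEmpty {s : Seed N M // ¬ adaptiveAcc r Y G s.1 s.2} := by
        refine ⟨fun s => s.2 ?_⟩
        unfold adaptiveAcc
        rw [hc]
        exact ⟨Or.inl ⟨R, hR⟩, fun i => Iff.rfl⟩
      simp
    · have hle : Nat.card {s : Seed N M // ¬ adaptiveAcc r Y G s.1 s.2} ≤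
          Nat.card {s : Seed N M // (σ s.1 : ℕ) < r N} := by
        simp only [Nat.card_eq_fintype_card, Fintype.card_subtype]
        refine Finset.card_le_card ?_
        intro s hs'
        simp only [Finset.mem_filter, Finset.mem_univ, true_and] at hs' ⊢
        by_contra hw
        refine hs' ?_
        have hadj : ∀ v, G.Adj s.1 v ↔ (σ v : ℕ) < r N := by
          intro v
          have := neighborSet_comap (y := y) hw
          rw [← hG] at this
          exact Set.ext_iff.1 this v
        have hcard : Nat.card {x // G.Adj s.1 x} = r N := by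
          rw [Nat.card_congr (Equiv.subtypeEquivRight hadj)]
          exact card_lt_subtype (by omega) σ
        have hc : compGraph (r N) G s.1 = G := by
          ext u v
          change ((G.Adj s.1 u ∧ G.Adj s.1 v ∧ Nat.card {x // G.Adj s.1 x} = r N ∧ G.Adj u v) ∨
            ¬ (G.Adj s.1 u ↔ G.Adj s.1 v)) ↔ G.Adj u v
          rw [hadj, hadj, hcard]
          by_cases h : (σ u : ℕ) < r N ∧ (σ v : ℕ) < r N
          · simp [h.1, h.2]
          · have := comap_adj_of_not_lt (y := y) h
            rw [← hG] at this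
            rw [this]
            tauto
        unfold adaptiveAcc
        rw [hc]
        exact ⟨Or.inr ⟨hr', y, hy, σ, hG⟩, fun i => Iff.rfl⟩
      have hc1 : Nat.card {s : Seed N M // (σ s.1 : ℕ) < r N} = r N * (N * N) ^ M := by
        rw [card_prod_subtype (α := Fin N) (β := Fin M → Fin N × Fin N)
          (fun w _ => (σ w : ℕ) < r N)]
        have : ∀ w : Fin N, Nat.card {_f : Fin M → Fin N × Fin N // (σ w : ℕ) < r N} =
            if (σ w : ℕ) < r N then (N * N) ^ M else 0 := by
          intro w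
          split_ifs with h
          · simp [h]
          · simp [h]
        simp only [this]
        rw [← Finset.sum_filter, Finset.sum_const, smul_eq_mul, ← Fintype.card_subtype,
          ← Nat.card_eq_fintype_card, card_lt_subtype (by omega) σ]
      rw [hc1] at hle
      rw [card_seed]
      have h6 : 10 * (r N * (N * N) ^ M) ≤ N * (N * N) ^ M := by
        calc 10 * (r N * (N * N) ^ M) = (10 * r N) * (N * N) ^ M := by ring
          _ ≤ N * (N * N) ^ M := by gcongr
      omega
  · -- soundness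
    intro G hG
    simp only [hT2]
    refine reject_count (fun w f => adaptiveAcc r Y G w f) fun w => ?_
    by_cases hc : compGraph (r N) G w ∈ (prop r Y).graphs N
    · simp only [adaptiveAcc, hc, true_and]
      exact sample_detects hN hM G _ (hG _ hc)
    · simp [adaptiveAcc, hc]

end Pool.Agent.Lib_MP_cc9a35_lc
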